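import Mathlib

set_option autoImplicit false

open Polynomial Filter Topology

namespace Pool.Agent.V1175.MS

/-- A real polynomial has only real zeros; the zero polynomial is included by convention. -/
def RR (f : ℝ[X]) : Prop := f = 0 ∨ ∀ z : ℂ, aeval z f = 0 → z.im = 0

theorem RR.zero : RR 0 := Or.inl rfl

/-- Factorization of a polynomial with only real zeros. -/
theorem RR.exists_roots {f : ℝ[X]} (hf : RR f) (hf0 : f ≠ 0) :
    ∃ s : Multiset ℝ, ∀ z : ℂ, aeval z f = (f.leadingCoeff : ℂ) * (s.map (fun r : ℝ => z - r)).prod := by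
  have hr : ∀ z : ℂ, aeval z f = 0 → z.im = 0 := by
    rcases hf with h | h
    · exact absurd h hf0
    · exact h
  set G : ℂ[X] := f.map (algebraMap ℝ ℂ) with hG
  have hG0 : G ≠ 0 := by
    rw [hG]; exact (Polynomial.map_ne_zero_iff (algebraMap ℝ ℂ).injective).mpr hf0
  have hroots : ∀ z ∈ G.roots, ((z.re : ℝ) : ℂ) = z := by
    intro z hz
    have h1 : G.eval z = 0 := (mem_roots hG0).mp hz
    have h2 : aeval z f = 0 := by
      rw [hG, eval_map_algebraMap] at h1; exact h1
    have h3 := hr z h2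
    exact Complex.ext (by simp) (by simp [h3])
  refine ⟨G.roots.map Complex.re, fun z => ?_⟩
  have hsplit := IsAlgClosed.splits G
  have hprod := hsplit.eq_prod_roots
  have hlead : G.leadingCoeff = (f.leadingCoeff : ℂ) := by
    rw [hG, leadingCoeff_map]; rfl
  have h1 : aeval z f = G.eval z := by rw [hG, eval_map_algebraMap]
  rw [h1]
  conv_lhs => rw [hprod]
  rw [eval_mul, eval_C, hlead, eval_multiset_prod, Multiset.map_map, Multiset.map_map]
  congr 2
  apply Multiset.map_congr rfl
  intro w hw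
  simp [hroots w hw]

/-- The modulus of a polynomial with only real zeros increases along vertical half lines. -/
theorem RR.norm_mono {f : ℝ[X]} (hf : RR f) {x y y' : ℝ} (h : |y'| ≤ |y|) :
    ‖aeval (⟨x, y'⟩ : ℂ) f‖ ≤ ‖aeval (⟨x, y⟩ : ℂ) f‖ := by
  by_cases hf0 : f = 0
  · simp [hf0]
  obtain ⟨s, hs⟩ := hf.exists_roots hf0
  rw [hs, hs, norm_mul, norm_mul]
  apply mul_le_mul_of_nonneg_left _ (norm_nonneg _)
  induction s using Multiset.induction_on with
  | empty => simp
  | cons a s ih =>
    rw [Multiset.map_cons, Multiset.map_cons, Multiset.prod_cons, Multiset.prod_cons, norm_mul,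
      norm_mul]
    apply mul_le_mul _ _ (norm_nonneg _) (norm_nonneg _)
    · have h1 : ∀ t : ℝ, ‖(⟨x, t⟩ : ℂ) - (a : ℂ)‖ = Real.sqrt ((x - a) ^ 2 + t ^ 2) := by
        intro t
        rw [Complex.norm_def, Complex.normSq_apply]
        congr 1
        simp
        ring
      rw [h1, h1]
      apply Real.sqrt_le_sqrt
      have := sq_le_sq.mpr h
      linarith
    · -- the induction hypothesis, freed of the factorization
      clear ih hs
      induction s using Multiset.induction_on with
      | empty => simp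
      | cons b s ih =>
        rw [Multiset.map_cons, Multiset.map_cons, Multiset.prod_cons, Multiset.prod_cons, norm_mul,
          norm_mul]
        apply mul_le_mul _ ih (norm_nonneg _) (norm_nonneg _)
        have h1 : ∀ t : ℝ, ‖(⟨x, t⟩ : ℂ) - (b : ℂ)‖ = Real.sqrt ((x - b) ^ 2 + t ^ 2) := by
          intro t
          rw [Complex.norm_def, Complex.normSq_apply]
          congr 1
          simp
          ring
        rw [h1, h1]
        apply Real.sqrt_le_sqrt
        have := sq_le_sq.mpr h
        linarith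

/-- Pointwise limits of real-rooted polynomials which are polynomials are real-rooted. -/
theorem RR.of_tendsto {ι : Type*} {l : Filter ι} [NeBot l] {h : ι → ℝ[X]} {g : ℝ[X]}
    (hh : ∀ᶠ i in l, RR (h i))
    (hlim : ∀ z : ℂ, Tendsto (fun i => aeval z (h i)) l (𝓝 (aeval z g))) : RR g := by
  by_contra hcon
  unfold RR at hcon
  push Not at hcon
  obtain ⟨hg0, z, hz, hzim⟩ := hcon
  have hvan : ∀ t : ℝ, |t| ≤ |z.im| → aeval (⟨z.re, t⟩ : ℂ) g = 0 := by
    intro t ht
    have h1 : Tendsto (fun i => ‖aeval (⟨z.re, t⟩ : ℂ) (h i)‖) l (𝓝 ‖aeval (⟨z.re, t⟩ : ℂ) g‖) :=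
      (hlim _).norm
    have h2 : Tendsto (fun i => ‖aeval (⟨z.re, z.im⟩ : ℂ) (h i)‖) l (𝓝 ‖aeval z g‖) :=
      (hlim z).norm
    have h3 : ‖aeval (⟨z.re, t⟩ : ℂ) g‖ ≤ ‖aeval z g‖ :=
      le_of_tendsto_of_tendsto h1 h2 (hh.mono fun i hi => hi.norm_mono ht)
    rw [hz, norm_zero] at h3
    exact norm_le_zero_iff.mp h3
  -- infinitely many zeros
  have hG0 : g.map (algebraMap ℝ ℂ) ≠ 0 :=
    (Polynomial.map_ne_zero_iff (algebraMap ℝ ℂ).injective).mpr hg0
  have hinf : Set.Infinite {w : ℂ | (g.map (algebraMap ℝ ℂ)).IsRoot w} := by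
    have h1 : Set.Infinite ((fun t : ℝ => (⟨z.re, t⟩ : ℂ)) '' Set.Icc (-|z.im|) (|z.im|)) := by
      apply Set.Infinite.image
      · intro a _ b _ hab
        have := congrArg Complex.im hab
        simpa using this
      · apply Set.Icc_infinite
        have := abs_pos.mpr hzim
        linarith
    apply h1.mono
    rintro w ⟨t, ht, rfl⟩
    change eval _ _ = 0
    rw [eval_map_algebraMap]
    exact hvan t (abs_le.mpr ht)
  exact hG0 (Polynomial.eq_zero_of_infinite_isRoot _ hinf)

end Pool.Agent.V1175.MS
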