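import Mathlib
import Pool.Agent.V1175.MS.RR

/-!
# The composition theorem of Schur and Szego

Grace-Walsh-Szego for the half plane by iterated polar derivatives, and the multiplier property
of a sequence whose Jensen polynomials have only real nonpositive zeros.
-/

set_option autoImplicit false

namespace Pool.Agent.V1175.MS

open Polynomial Finset Filter Topology


/-- The polynomial with coefficients `binom(m, k) b_k`. -/
noncomputable def bp (m : ℕ) (b : ℕ → ℂ) : ℂ[X] :=
  ∑ k ∈ range (m + 1), C ((m.choose k : ℂ) * b k) * X ^ k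

lemma bp_zero (b : ℕ → ℂ) : bp 0 b = C (b 0) := by simp [bp]

lemma coeff_bp (m : ℕ) (b : ℕ → ℂ) (k : ℕ) : (bp m b).coeff k = (m.choose k : ℂ) * b k := by
  unfold bp
  rw [finsetSum_coeff]
  simp only [coeff_C_mul_X_pow]
  by_cases hk : k ∈ range (m + 1)
  · rw [Finset.sum_eq_single k]
    · simp
    · intro j _ hj
      rw [if_neg (Ne.symm hj)]
    · intro h; exact absurd hk h
  · rw [Finset.sum_eq_zero]
    · have : m < k := by simpa [Nat.lt_succ_iff] using hk
      rw [Nat.choose_eq_zero_of_lt this]; simp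
    · intro j hj
      rw [if_neg]
      rintro rfl
      exact hk hj

lemma bp_succ (m : ℕ) (b : ℕ → ℂ) :
    bp (m + 1) b = bp m b + X * bp m (fun k => b (k + 1)) := by
  ext k
  rw [coeff_add, coeff_bp, coeff_bp]
  cases k with
  | zero => simp
  | succ k =>
    rw [coeff_X_mul, coeff_bp, Nat.choose_succ_succ]
    push_cast; ring

lemma bp_derivative (m : ℕ) (b : ℕ → ℂ) :
    derivative (bp (m + 1) b) = C ((m : ℂ) + 1) * bp m (fun k => b (k + 1)) := by
  ext k
  rw [coeff_derivative, coeff_bp, coeff_C_mul, coeff_bp]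
  have h : ((m + 1).choose (k + 1) : ℂ) * ((k : ℂ) + 1) = ((m : ℂ) + 1) * (m.choose k : ℂ) := by
    have := Nat.add_one_mul_choose_eq m k
    have h2 : (((m + 1) * m.choose k : ℕ) : ℂ) = (((m + 1).choose (k + 1) * (k + 1) : ℕ) : ℂ) := by
      exact_mod_cast this
    push_cast at h2
    linear_combination -h2
  linear_combination (b (k + 1)) * h

lemma bp_add_mul (m : ℕ) (b : ℕ → ℂ) (ζ : ℂ) :
    bp m (fun k => b k + ζ * b (k + 1)) = bp m b + C ζ * bp m (fun k => b (k + 1)) := by
  ext k
  rw [coeff_add, coeff_C_mul, coeff_bp, coeff_bp, coeff_bp]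
  ring

/-- The convexity estimate behind the theorem of Laguerre. -/
lemma sum_inv_bound {y : ℝ} (hy : 0 < y) {z : ℂ} (hz : z.im = y) (s : Multiset ℂ)
    (hs : ∀ w ∈ s, w.im ≤ 0) :
    Complex.normSq ((s.map fun w => 1 / (z - w)).sum) * y +
      (Multiset.card s : ℝ) * ((s.map fun w => 1 / (z - w)).sum).im ≤ 0 ∧
    (Multiset.card s = 0 → (s.map fun w => 1 / (z - w)).sum = 0) := by
  induction s using Multiset.induction_on with
  | empty => simp
  | cons w s ih =>
    obtain ⟨ih1, ih2⟩ := ih fun w' hw' => hs w' (Multiset.mem_cons_of_mem hw')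
    have hw : w.im ≤ 0 := hs w (Multiset.mem_cons_self w s)
    refine ⟨?_, by simp⟩
    rw [Multiset.map_cons, Multiset.sum_cons, Multiset.card_cons]
    set U := (s.map fun w => 1 / (z - w)).sum with hU
    set u := 1 / (z - w) with hu
    set n : ℝ := (Multiset.card s : ℝ) with hn
    have hzw : z - w ≠ 0 := by
      intro h
      have := congrArg Complex.im h
      simp [hz] at this
      linarith
    have hN : 0 < Complex.normSq (z - w) := Complex.normSq_pos.mpr hzw
    have hu1 : Complex.normSq u * y + u.im ≤ 0 := by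
      have e1 : Complex.normSq u = 1 / Complex.normSq (z - w) := by
        rw [hu, one_div, map_inv₀, one_div]
      have e2 : u.im = -(z.im - w.im) / Complex.normSq (z - w) := by
        rw [hu, one_div, Complex.inv_im]
        simp
      rw [e1, e2, hz]
      have : 1 / Complex.normSq (z - w) * y + -(y - w.im) / Complex.normSq (z - w) =
          w.im / Complex.normSq (z - w) := by
        field_simp
        ring
      rw [this]
      exact div_nonpos_of_nonpos_of_nonneg hw hN.le
    push_cast
    rw [← hn]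
    have hn0 : 0 ≤ n := by positivity
    rcases hn0.eq_or_lt with h0 | hpos
    · have hc : Multiset.card s = 0 := by
        have : (Multiset.card s : ℝ) = 0 := by rw [← hn, ← h0]
        exact_mod_cast this
      have hU0 : U = 0 := ih2 hc
      rw [hU0, ← h0, add_zero]
      simp only [zero_add, one_mul]
      exact hu1
    · have key : n * (Complex.normSq (u + U) * y + (n + 1) * (u + U).im) ≤ 0 := by
        have id1 : (n + 1) * Complex.normSq U + n * (n + 1) * Complex.normSq u
            - n * Complex.normSq (u + U) = Complex.normSq (U - n * u) := by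
          simp only [Complex.normSq_apply, Complex.add_re, Complex.add_im, Complex.sub_re,
            Complex.sub_im, Complex.mul_re, Complex.mul_im, Complex.ofReal_re, Complex.ofReal_im]
          ring
        have h3 : 0 ≤ Complex.normSq (U - n * u) * y :=
          mul_nonneg (Complex.normSq_nonneg _) hy.le
        rw [Complex.add_im]
        have e4 : n * (Complex.normSq (u + U) * y + (n + 1) * (u.im + U.im)) =
            (n + 1) * (Complex.normSq U * y + n * U.im)
            + n * (n + 1) * (Complex.normSq u * y + u.im)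
            - Complex.normSq (U - n * u) * y := by
          rw [← id1]; ring
        rw [e4]
        have h5 : (n + 1) * (Complex.normSq U * y + n * U.im) ≤ 0 :=
          mul_nonpos_of_nonneg_of_nonpos (by positivity) ih1
        have h6 : n * (n + 1) * (Complex.normSq u * y + u.im) ≤ 0 :=
          mul_nonpos_of_nonneg_of_nonpos (by positivity) hu1
        linarith
      by_contra hcon
      push Not at hcon
      have := mul_pos hpos hcon
      linarith

/-- The theorem of Laguerre on polar derivatives, for the upper half plane. -/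
lemma laguerre_step (m : ℕ) (b : ℕ → ℂ)
    (hN : ∀ z : ℂ, 0 < z.im → (bp (m + 1) b).eval z ≠ 0) (ζ : ℂ) (hζ : 0 < ζ.im) :
    ∀ z : ℂ, 0 < z.im → (bp m (fun k => b k + ζ * b (k + 1))).eval z ≠ 0 := by
  intro z hz h0
  set P := bp (m + 1) b with hP
  have hPz : P.eval z ≠ 0 := hN z hz
  have hm : ((m : ℂ) + 1) ≠ 0 := by exact_mod_cast Nat.succ_ne_zero m
  have h1 : P.eval z * ((m : ℂ) + 1) + (ζ - z) * (derivative P).eval z = 0 := by
    have e1 : bp m (fun k => b k + ζ * b (k + 1)) =
        P + (C ζ - X) * bp m (fun k => b (k + 1)) := by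
      rw [bp_add_mul, hP, bp_succ]; ring
    rw [e1] at h0
    rw [hP, bp_derivative]
    simp only [eval_add, eval_mul, eval_sub, eval_C, eval_X] at h0 ⊢
    linear_combination ((m : ℂ) + 1) * h0
  have hlog := (IsAlgClosed.splits P).eval_derivative_div_eval_of_ne_zero hPz
  set U := (P.roots.map fun w => 1 / (z - w)).sum with hU
  have hUe : (derivative P).eval z = U * P.eval z := by
    rw [← hlog]; field_simp
  have h2 : (z - ζ) * U = (m : ℂ) + 1 := by
    have h3 : P.eval z * (((m : ℂ) + 1) - (z - ζ) * U) = 0 := by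
      rw [hUe] at h1
      linear_combination h1
    rcases mul_eq_zero.mp h3 with h | h
    · exact absurd h hPz
    · linear_combination -h
  have hroots : ∀ w ∈ P.roots, w.im ≤ 0 := by
    intro w hw
    by_contra hcon
    push Not at hcon
    have hP0 : P ≠ 0 := by
      intro h; rw [h] at hPz; simp at hPz
    exact hN w hcon ((mem_roots hP0).mp hw)
  obtain ⟨hb, -⟩ := sum_inv_bound hz rfl P.roots hroots
  rw [← hU] at hb
  have hcard : (Multiset.card P.roots : ℝ) ≤ (m : ℝ) + 1 := by
    have h4 : Multiset.card P.roots ≤ P.natDegree := P.card_roots'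
    have h5 : P.natDegree ≤ m + 1 := by
      rw [hP]
      unfold bp
      apply natDegree_sum_le_of_forall_le
      intro k hk
      apply (natDegree_C_mul_X_pow_le _ _).trans
      have := Finset.mem_range.mp hk
      omega
    exact_mod_cast h4.trans h5
  have hzζ : z - ζ ≠ 0 := by
    intro h
    rw [h, zero_mul] at h2
    exact hm h2.symm
  have hD : 0 < Complex.normSq (z - ζ) := Complex.normSq_pos.mpr hzζ
  have hUv : U = ((m : ℂ) + 1) / (z - ζ) := by
    rw [eq_div_iff hzζ]; linear_combination h2
  have hUsq : Complex.normSq U = ((m : ℝ) + 1) ^ 2 / Complex.normSq (z - ζ) := by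
    rw [hUv, map_div₀]
    congr 1
    have : ((m : ℂ) + 1) = (((m : ℝ) + 1 : ℝ) : ℂ) := by push_cast; rfl
    rw [this, Complex.normSq_ofReal]; ring
  have hUim : U.im = -((m : ℝ) + 1) * (z.im - ζ.im) / Complex.normSq (z - ζ) := by
    rw [hUv, div_eq_mul_inv]
    have : ((m : ℂ) + 1) = (((m : ℝ) + 1 : ℝ) : ℂ) := by push_cast; rfl
    rw [this, Complex.im_ofReal_mul, Complex.inv_im, Complex.sub_im]
    ring
  rw [hUsq, hUim] at hb
  set c : ℝ := (Multiset.card P.roots : ℝ) with hc
  have hc0 : 0 ≤ c := by positivity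
  have h6 : ((m : ℝ) + 1) * z.im ≤ c * (z.im - ζ.im) := by
    have e : ((m : ℝ) + 1) ^ 2 / Complex.normSq (z - ζ) * z.im +
        c * (-((m : ℝ) + 1) * (z.im - ζ.im) / Complex.normSq (z - ζ)) =
        (((m : ℝ) + 1) / Complex.normSq (z - ζ)) *
          (((m : ℝ) + 1) * z.im - c * (z.im - ζ.im)) := by
      field_simp
      ring
    rw [e] at hb
    have hpos : 0 < ((m : ℝ) + 1) / Complex.normSq (z - ζ) := by positivity
    by_contra hcon
    push Not at hcon
    have := mul_pos hpos (sub_pos.mpr hcon)
    linarith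
  have hm0 : (0 : ℝ) < (m : ℝ) + 1 := by positivity
  have h7 : c * (z.im - ζ.im) < ((m : ℝ) + 1) * z.im := by
    rcases le_or_gt (z.im - ζ.im) 0 with h | h
    · have : c * (z.im - ζ.im) ≤ 0 := mul_nonpos_of_nonneg_of_nonpos hc0 h
      have h8 : 0 < ((m : ℝ) + 1) * z.im := mul_pos hm0 hz
      linarith
    · calc c * (z.im - ζ.im) ≤ ((m : ℝ) + 1) * (z.im - ζ.im) :=
            mul_le_mul_of_nonneg_right hcard h.le
        _ < ((m : ℝ) + 1) * z.im := by
            apply mul_lt_mul_of_pos_left _ hm0
            linarith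
  linarith

/-- Iterated polar derivatives at the same point `x`, with weights. -/
def act (x : ℂ) : List ℝ → (ℕ → ℂ) → ℂ
  | [], b => b 0
  | (α :: l), b => act x l (fun k => (α : ℂ) * b k + x * b (k + 1))

lemma act_ne {x : ℂ} (hx : 0 < x.im) : ∀ (l : List ℝ), (∀ α ∈ l, 0 < α) → ∀ b : ℕ → ℂ,
    (∀ z : ℂ, 0 < z.im → (bp l.length b).eval z ≠ 0) → act x l b ≠ 0
  | [], _, b, hN => by
    have := hN Complex.I (by simp)
    simpa [bp_zero, act] using this
  | (α :: l), hl, b, hN => by
    have hα : 0 < α := hl α (by simp)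
    have hαc : (α : ℂ) ≠ 0 := by exact_mod_cast hα.ne'
    refine act_ne hx l (fun β hβ => hl β (by simp [hβ])) _ ?_
    intro z hz
    have hζ : 0 < (x / (α : ℂ)).im := by
      have : (x / (α : ℂ)).im = x.im / α := by
        rw [Complex.div_ofReal_im]
      rw [this]; positivity
    have h1 := laguerre_step l.length b (by simpa using hN) (x / α) hζ z hz
    have h2 : bp l.length (fun k => (α : ℂ) * b k + x * b (k + 1)) =
        C (α : ℂ) * bp l.length (fun k => b k + x / α * b (k + 1)) := by
      ext k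
      rw [coeff_C_mul, coeff_bp, coeff_bp]
      field_simp
    rw [h2, eval_mul, eval_C]
    exact mul_ne_zero hαc h1

lemma act_eq (x : ℂ) : ∀ (l : List ℝ) (b : ℕ → ℂ),
    act x l b = ∑ k ∈ range (l.length + 1),
      (((l.map fun α => (X + C α : ℝ[X])).prod.coeff k : ℝ) : ℂ) * b k * x ^ k
  | [], b => by simp [act]
  | (α :: l), b => by
    rw [act, act_eq x l]
    set f := (l.map fun α => (X + C α : ℝ[X])).prod with hf
    have hdeg : f.coeff (l.length + 1) = 0 := by
      apply coeff_eq_zero_of_natDegree_lt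
      have : f.natDegree ≤ l.length := by
        rw [hf]
        clear_value f
        clear hf f b
        induction l with
        | nil => simp
        | cons β l ih =>
          rw [List.map_cons, List.prod_cons, List.length_cons]
          apply natDegree_mul_le.trans
          rw [natDegree_X_add_C]
          omega
      omega
    have hcoeff : ∀ k, (((α :: l).map fun α => (X + C α : ℝ[X])).prod).coeff (k + 1) =
        f.coeff k + α * f.coeff (k + 1) := by
      intro k
      rw [List.map_cons, List.prod_cons, ← hf, add_mul, coeff_add, coeff_X_mul, coeff_C_mul]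
    have hcoeff0 : (((α :: l).map fun α => (X + C α : ℝ[X])).prod).coeff 0 = α * f.coeff 0 := by
      rw [List.map_cons, List.prod_cons, ← hf, add_mul, coeff_add, coeff_C_mul, coeff_X_mul_zero,
        zero_add]
    rw [List.length_cons]
    conv_rhs => rw [Finset.sum_range_succ']
    simp only [hcoeff, hcoeff0]
    have e1 : ∑ k ∈ range (l.length + 1), ((f.coeff k : ℝ) : ℂ) * ((α : ℂ) * b k + x * b (k + 1))
        * x ^ k = ∑ k ∈ range (l.length + 1), ((f.coeff k : ℝ) : ℂ) * (α : ℂ) * b k * x ^ k +
        ∑ k ∈ range (l.length + 1), ((f.coeff k : ℝ) : ℂ) * b (k + 1) * x ^ (k + 1) := by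
      rw [← Finset.sum_add_distrib]
      refine Finset.sum_congr rfl fun k _ => ?_
      rw [pow_succ]; ring
    have e2 : ∑ k ∈ range (l.length + 1), ((f.coeff k + α * f.coeff (k + 1) : ℝ) : ℂ) *
        b (k + 1) * x ^ (k + 1) =
        ∑ k ∈ range (l.length + 1), ((f.coeff k : ℝ) : ℂ) * b (k + 1) * x ^ (k + 1) +
        ∑ k ∈ range (l.length + 1), ((f.coeff (k + 1) : ℝ) : ℂ) * (α : ℂ) * b (k + 1) *
          x ^ (k + 1) := by
      rw [← Finset.sum_add_distrib]
      refine Finset.sum_congr rfl fun k _ => ?_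
      push_cast; ring
    rw [e1, e2]
    have e3 : ∑ k ∈ range (l.length + 1), ((f.coeff k : ℝ) : ℂ) * (α : ℂ) * b k * x ^ k =
        ∑ k ∈ range (l.length + 1), ((f.coeff (k + 1) : ℝ) : ℂ) * (α : ℂ) * b (k + 1) *
          x ^ (k + 1) + ((f.coeff 0 : ℝ) : ℂ) * (α : ℂ) * b 0 * x ^ 0 := by
      rw [← Finset.sum_range_succ' (fun k => ((f.coeff k : ℝ) : ℂ) * (α : ℂ) * b k * x ^ k),
        Finset.sum_range_succ _ (l.length + 1), hdeg]
      simp
    rw [e3]
    push_cast
    ring

/-- The polynomial `∑ γ_k a_k x^k` for `p = ∑ a_k x^k`, up to degree `n`. -/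
noncomputable def Tn (n : ℕ) (γ : ℕ → ℝ) (p : ℝ[X]) : ℝ[X] :=
  ∑ k ∈ range (n + 1), C (γ k * p.coeff k) * X ^ k

lemma aeval_Tn (n : ℕ) (γ : ℕ → ℝ) (p : ℝ[X]) (z : ℂ) :
    aeval z (Tn n γ p) = ∑ k ∈ range (n + 1), (γ k : ℂ) * (p.coeff k : ℂ) * z ^ k := by
  unfold Tn
  rw [map_sum]
  refine Finset.sum_congr rfl fun k _ => ?_
  simp

lemma aeval_conj' (f : ℝ[X]) (z : ℂ) :
    aeval ((starRingEnd ℂ) z) f = (starRingEnd ℂ) (aeval z f) := by
  rw [aeval_eq_sum_range, aeval_eq_sum_range, map_sum]
  refine Finset.sum_congr rfl fun k _ => ?_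
  simp [Complex.real_smul]

/-- Composition theorem, positive parameters. -/
lemma comp_pos (n : ℕ) (γ : ℕ → ℝ) (c : ℝ) (l : List ℝ) (hl : l.length = n)
    (hpos : ∀ α ∈ l, 0 < α)
    (hγ : ∀ k ≤ n, (n.choose k : ℝ) * γ k = c * (l.map fun α => (X + C α : ℝ[X])).prod.coeff k)
    (p : ℝ[X]) (hp : RR p) (hdeg : p.natDegree ≤ n) : RR (Tn n γ p) := by
  by_cases hc : c = 0
  · left
    unfold Tn
    apply Finset.sum_eq_zero
    intro k hk
    have hk' : k ≤ n := by have := Finset.mem_range.mp hk; omega
    have h1 := hγ k hk'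
    rw [hc, zero_mul] at h1
    have h2 : (n.choose k : ℝ) ≠ 0 := by exact_mod_cast (Nat.choose_pos hk').ne'
    have : γ k = 0 := by
      rcases mul_eq_zero.mp h1 with h | h
      · exact absurd h h2
      · exact h
    simp [this]
  rcases hp with rfl | hp
  · left; unfold Tn; simp
  right
  have hne : ∀ z : ℂ, 0 < z.im → aeval z (Tn n γ p) ≠ 0 := by
    intro z hz h0
    set b : ℕ → ℂ := fun k => (p.coeff k : ℂ) / (n.choose k : ℂ) with hb
    have hbp : bp n b = p.map (algebraMap ℝ ℂ) := by
      ext k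
      rw [coeff_bp, coeff_map]
      by_cases hk : k ≤ n
      · have h2 : (n.choose k : ℂ) ≠ 0 := by exact_mod_cast (Nat.choose_pos hk).ne'
        simp only [hb]
        field_simp
        rfl
      · push Not at hk
        rw [Nat.choose_eq_zero_of_lt hk, coeff_eq_zero_of_natDegree_lt (lt_of_le_of_lt hdeg hk)]
        simp
    have hN : ∀ w : ℂ, 0 < w.im → (bp l.length b).eval w ≠ 0 := by
      intro w hw h
      rw [hl, hbp, eval_map_algebraMap] at h
      have := hp w h
      linarith
    have h1 := act_ne hz l hpos b hN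
    apply h1
    rw [act_eq, hl]
    rw [aeval_Tn] at h0
    have hcc : (c : ℂ) ≠ 0 := by exact_mod_cast hc
    have h3 : (c : ℂ) * ∑ k ∈ range (n + 1),
        (((l.map fun α => (X + C α : ℝ[X])).prod.coeff k : ℝ) : ℂ) * b k * z ^ k = 0 := by
      rw [Finset.mul_sum, ← h0]
      refine Finset.sum_congr rfl fun k hk => ?_
      have hk' : k ≤ n := by have := Finset.mem_range.mp hk; omega
      have h4 : (c : ℂ) * (((l.map fun α => (X + C α : ℝ[X])).prod.coeff k : ℝ) : ℂ) =
          (n.choose k : ℂ) * (γ k : ℂ) := by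
        have := hγ k hk'
        exact_mod_cast this.symm
      have h2 : (n.choose k : ℂ) ≠ 0 := by exact_mod_cast (Nat.choose_pos hk').ne'
      rw [← mul_assoc, ← mul_assoc, h4]
      simp only [hb]
      field_simp
    rcases mul_eq_zero.mp h3 with h | h
    · exact absurd h hcc
    · exact h
  intro z hz
  by_contra him
  rcases lt_or_gt_of_ne him with h | h
  · apply hne ((starRingEnd ℂ) z) (by simpa using h)
    rw [aeval_conj', hz, map_zero]
  · exact hne z h hz

lemma continuous_coeff_prod (l : List ℝ) : ∀ k : ℕ,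
    Continuous fun ε : ℝ => (l.map fun α => (X + C (α + ε) : ℝ[X])).prod.coeff k := by
  induction l with
  | nil => intro k; simp only [List.map_nil, List.prod_nil]; exact continuous_const
  | cons α l ih =>
    intro k
    simp only [List.map_cons, List.prod_cons, add_mul, coeff_add, coeff_C_mul]
    cases k with
    | zero =>
      simp only [coeff_X_mul_zero, zero_add]
      exact (continuous_const.mul (ih 0)).add (continuous_id.mul (ih 0))
    | succ k =>
      simp only [coeff_X_mul]
      exact (ih k).add ((continuous_const.mul (ih (k + 1))).add (continuous_id.mul (ih (k + 1))))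

/-- Composition theorem, nonnegative parameters. -/
theorem comp_nonneg (n : ℕ) (γ : ℕ → ℝ) (c : ℝ) (l : List ℝ) (hl : l.length = n)
    (hpos : ∀ α ∈ l, 0 ≤ α)
    (hγ : ∀ k ≤ n, (n.choose k : ℝ) * γ k = c * (l.map fun α => (X + C α : ℝ[X])).prod.coeff k)
    (p : ℝ[X]) (hp : RR p) (hdeg : p.natDegree ≤ n) : RR (Tn n γ p) := by
  set g : ℝ → ℕ → ℝ := fun ε k =>
    c * (l.map fun α => (X + C (α + ε) : ℝ[X])).prod.coeff k / (n.choose k : ℝ) with hg
  have h1 : ∀ᶠ ε in 𝓝[>] (0 : ℝ), RR (Tn n (g ε) p) := by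
    filter_upwards [self_mem_nhdsWithin] with ε hε
    refine comp_pos n (g ε) c (l.map fun α => α + ε) (by simpa using hl) ?_ ?_ p hp hdeg
    · intro β hβ
      obtain ⟨α, hα, rfl⟩ := List.mem_map.mp hβ
      have := hpos α hα
      have h0 : (0 : ℝ) < ε := hε
      linarith
    · intro k hk
      have h2 : (n.choose k : ℝ) ≠ 0 := by exact_mod_cast (Nat.choose_pos hk).ne'
      simp only [hg, List.map_map, Function.comp_def]
      field_simp
  refine RR.of_tendsto h1 ?_
  intro z
  simp only [aeval_Tn]
  have h3 : ∀ k ∈ range (n + 1), Tendsto (fun ε : ℝ => ((g ε k : ℝ) : ℂ) * (p.coeff k : ℂ) * z ^ k)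
      (𝓝[>] 0) (𝓝 ((γ k : ℂ) * (p.coeff k : ℂ) * z ^ k)) := by
    intro k hk
    have hk' : k ≤ n := by have := Finset.mem_range.mp hk; omega
    have h2 : (n.choose k : ℝ) ≠ 0 := by exact_mod_cast (Nat.choose_pos hk').ne'
    have hc : Continuous fun ε : ℝ => g ε k := by
      simp only [hg]
      exact ((continuous_const.mul (continuous_coeff_prod l k))).div_const _
    have hv : g 0 k = γ k := by
      simp only [hg, add_zero]
      rw [← hγ k hk']
      field_simp
    have h4 : Tendsto (fun ε : ℝ => g ε k) (𝓝[>] 0) (𝓝 (γ k)) := by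
      rw [← hv]
      exact (hc.tendsto 0).mono_left nhdsWithin_le_nhds
    have h5 : Tendsto (fun ε : ℝ => ((g ε k : ℝ) : ℂ)) (𝓝[>] 0) (𝓝 ((γ k : ℝ) : ℂ)) :=
      (Complex.continuous_ofReal.tendsto _).comp h4
    exact (h5.mul_const _).mul_const _
  exact tendsto_finsetSum _ h3

end Pool.Agent.V1175.MS
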