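import Mathlib
import Pool.Agent.V1175.MS.Comp

/-!
# Roots from sign changes, and the criterion for multiplier sequences
-/

set_option autoImplicit false

namespace Pool.Agent.V1175.MS

open Polynomial Finset Filter Topology


/-- `n` sign changes of a polynomial of degree `n` give all its roots. -/
theorem roots_of_signs (N : ℕ) (q : ℝ[X]) (hdeg : q.natDegree ≤ N) (t : ℕ → ℝ)
    (ht : ∀ i j, i < j → j < N → t i < t j)
    (hs : ∀ i < N, 0 < (-1 : ℝ) ^ i * q.eval (t i))
    (hlead : 0 < (-1 : ℝ) ^ N * q.coeff N) :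
    ∃ r : ℕ → ℝ, (∀ i < N, t i < r i) ∧ (∀ i, i + 1 < N → r i < t (i + 1)) ∧
      q = C (q.coeff N) * ∏ i ∈ range N, (X - C (r i)) := by
  classical
  have hl0 : q.coeff N ≠ 0 := by
    intro h; rw [h] at hlead; simp at hlead
  have hnd : q.natDegree = N := le_antisymm hdeg (le_natDegree_of_ne_zero hl0)
  -- a root in each gap
  have hex : ∀ i < N, ∃ x : ℝ, t i < x ∧ (i + 1 < N → x < t (i + 1)) ∧ q.eval x = 0 := by
    intro i hi
    by_cases hi1 : i + 1 < N
    · have hlt : t i < t (i + 1) := ht i (i + 1) (Nat.lt_succ_self i) hi1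
      have h1 := hs i hi
      have h2 := hs (i + 1) hi1
      have hcont : ContinuousOn (fun x => q.eval x) (Set.Icc (t i) (t (i + 1))) :=
        q.continuous.continuousOn
      rw [pow_succ] at h2
      rcases Nat.even_or_odd i with he | ho
      · rw [he.neg_one_pow] at h1 h2
        have h3 : (0 : ℝ) ∈ Set.Ioo (q.eval (t (i + 1))) (q.eval (t i)) := by
          constructor <;> linarith
        obtain ⟨x, hx, hx0⟩ := intermediate_value_Ioo' hlt.le hcont h3
        exact ⟨x, hx.1, fun _ => hx.2, hx0⟩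
      · rw [ho.neg_one_pow] at h1 h2
        have h3 : (0 : ℝ) ∈ Set.Ioo (q.eval (t i)) (q.eval (t (i + 1))) := by
          constructor <;> linarith
        obtain ⟨x, hx, hx0⟩ := intermediate_value_Ioo hlt.le hcont h3
        exact ⟨x, hx.1, fun _ => hx.2, hx0⟩
    · have hiN : N = i + 1 := by omega
      have h1 := hs i hi
      have hdpos : 0 < q.degree := by
        rw [degree_eq_natDegree (by rintro rfl; simp at hl0), hnd]
        exact_mod_cast (by omega : 0 < N)
      have hlc : q.leadingCoeff = q.coeff N := by rw [leadingCoeff, hnd]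
      rw [hiN, pow_succ] at hlead
      rw [← hiN] at hlead
      rcases Nat.even_or_odd i with he | ho
      · rw [he.neg_one_pow] at h1 hlead
        have hneg : q.leadingCoeff ≤ 0 := by rw [hlc]; linarith
        have htend := q.tendsto_atBot_of_leadingCoeff_nonpos hdpos hneg
        obtain ⟨x, hx1, hx2⟩ := ((htend.eventually_lt_atBot 0).and
          (eventually_gt_atTop (t i))).exists
        have h3 : (0 : ℝ) ∈ Set.Ioo (q.eval x) (q.eval (t i)) := ⟨hx1, by linarith⟩
        obtain ⟨y, hy, hy0⟩ := intermediate_value_Ioo' hx2.le q.continuous.continuousOn h3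
        exact ⟨y, hy.1, fun h => absurd h hi1, hy0⟩
      · rw [ho.neg_one_pow] at h1 hlead
        have hneg : 0 ≤ q.leadingCoeff := by rw [hlc]; linarith
        have htend := q.tendsto_atTop_of_leadingCoeff_nonneg hdpos hneg
        obtain ⟨x, hx1, hx2⟩ := ((htend.eventually_gt_atTop 0).and
          (eventually_gt_atTop (t i))).exists
        have h3 : (0 : ℝ) ∈ Set.Ioo (q.eval (t i)) (q.eval x) := ⟨by linarith, hx1⟩
        obtain ⟨y, hy, hy0⟩ := intermediate_value_Ioo hx2.le q.continuous.continuousOn h3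
        exact ⟨y, hy.1, fun h => absurd h hi1, hy0⟩
  choose! r hr1 hr2 hr3 using hex
  have hmono : ∀ i j, i < j → j < N → r i < r j := by
    intro i j hij hj
    have hi : i + 1 < N := by omega
    have h1 : r i < t (i + 1) := hr2 i (by omega) hi
    have h2 : t (i + 1) ≤ t j := by
      rcases Nat.lt_or_ge (i + 1) j with h | h
      · exact (ht (i + 1) j h hj).le
      · have : i + 1 = j := by omega
        rw [this]
    exact lt_of_lt_of_le h1 (h2.trans (hr1 j hj).le)
  refine ⟨r, hr1, fun i hi => hr2 i (by omega) hi, ?_⟩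
  have hinj : Set.InjOn r (range N) := by
    intro i hi j hj hij
    simp only [coe_range, Set.mem_Iio] at hi hj
    rcases lt_trichotomy i j with h | h | h
    · exact absurd hij (hmono i j h hj).ne
    · exact h
    · exact absurd hij (hmono j i h hi).ne'
  set g : ℝ[X] := C (q.coeff N) * ∏ i ∈ range N, (X - C (r i)) with hg
  have hgdeg : g.natDegree ≤ N := by
    rw [hg]
    apply (natDegree_C_mul_le _ _).trans
    apply (natDegree_prod_le _ _).trans
    apply (Finset.sum_le_card_nsmul _ _ 1 fun i _ => by rw [natDegree_X_sub_C]).trans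
    simp
  have hmon : (∏ i ∈ range N, (X - C (r i))).Monic := monic_prod_of_monic _ _ fun i _ => monic_X_sub_C _
  have hgN : g.coeff N = q.coeff N := by
    rw [hg, coeff_C_mul]
    have h1 : (∏ i ∈ range N, (X - C (r i))).natDegree = N := by
      rw [natDegree_prod_of_monic _ _ fun i _ => monic_X_sub_C _]
      simp
    have h2 : (∏ i ∈ range N, (X - C (r i))).coeff N = 1 := by
      have := hmon.coeff_natDegree
      rwa [h1] at this
    rw [h2, mul_one]
  have hdegsub : (q - g).degree < #(image r (range N)) := by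
    rw [card_image_of_injOn hinj, card_range]
    rw [degree_lt_iff_coeff_zero]
    intro m hm
    rw [coeff_sub]
    rcases hm.eq_or_lt with h | h
    · have : m = N := by exact_mod_cast h.symm
      rw [this, hgN, sub_self]
    · have h' : N < m := by exact_mod_cast h
      rw [coeff_eq_zero_of_natDegree_lt (lt_of_le_of_lt hdeg h'),
        coeff_eq_zero_of_natDegree_lt (lt_of_le_of_lt hgdeg h'), sub_self]
  refine eq_of_degree_sub_lt_of_eval_finset_eq (image r (range N)) hdegsub ?_
  intro x hx
  obtain ⟨i, hi, rfl⟩ := mem_image.mp hx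
  rw [hr3 i (mem_range.mp hi), hg, eval_mul, eval_prod]
  rw [Finset.prod_eq_zero hi (by simp), mul_zero]

/-- The polynomial `∑ binom(n,k) c_k (-y)^k`. -/
noncomputable def jp (n : ℕ) (c : ℕ → ℝ) : ℝ[X] :=
  ∑ k ∈ range (n + 1), C ((n.choose k : ℝ) * c k * (-1) ^ k) * X ^ k

lemma coeff_jp (n : ℕ) (c : ℕ → ℝ) (k : ℕ) :
    (jp n c).coeff k = (n.choose k : ℝ) * c k * (-1) ^ k := by
  unfold jp
  rw [finsetSum_coeff]
  simp only [coeff_C_mul_X_pow]
  by_cases hk : k ∈ range (n + 1)
  · rw [Finset.sum_eq_single k]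
    · simp
    · intro j _ hj
      rw [if_neg (Ne.symm hj)]
    · intro h; exact absurd hk h
  · rw [Finset.sum_eq_zero]
    · have : n < k := by simpa [Nat.lt_succ_iff] using hk
      rw [Nat.choose_eq_zero_of_lt this]; simp
    · intro j hj
      rw [if_neg]
      rintro rfl
      exact hk hj

lemma natDegree_jp (n : ℕ) (c : ℕ → ℝ) : (jp n c).natDegree ≤ n := by
  unfold jp
  apply natDegree_sum_le_of_forall_le
  intro k hk
  apply (natDegree_C_mul_X_pow_le _ _).trans
  have := Finset.mem_range.mp hk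
  omega

/-- Property of a sequence of weights. -/
def Mult (γ : ℕ → ℝ) : Prop := ∀ (n : ℕ) (p : ℝ[X]), RR p → p.natDegree ≤ n → RR (Tn n γ p)

lemma mult_of_tendsto {γ : ℕ → ℝ} {g : ℝ → ℕ → ℝ} (h : ∀ ε : ℝ, 0 < ε → Mult (g ε))
    (hl : ∀ k, Tendsto (fun ε => g ε k) (𝓝[>] 0) (𝓝 (γ k))) : Mult γ := by
  intro n p hp hdeg
  have h1 : ∀ᶠ ε in 𝓝[>] (0 : ℝ), RR (Tn n (g ε) p) := by
    filter_upwards [self_mem_nhdsWithin] with ε hε
    exact h ε hε n p hp hdeg
  refine RR.of_tendsto h1 ?_
  intro z
  simp only [aeval_Tn]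
  refine tendsto_finsetSum _ fun k _ => ?_
  have h5 : Tendsto (fun ε : ℝ => ((g ε k : ℝ) : ℂ)) (𝓝[>] 0) (𝓝 ((γ k : ℝ) : ℂ)) :=
    (Complex.continuous_ofReal.tendsto _).comp (hl k)
  exact (h5.mul_const _).mul_const _

lemma list_prod_range (n : ℕ) (r : ℕ → ℝ) :
    (((List.range n).map r).map fun α => (X + C α : ℝ[X])).prod =
      ∏ i ∈ range n, (X + C (r i)) := by
  induction n with
  | zero => simp
  | succ n ih =>
    rw [List.range_succ, List.map_append, List.map_append, List.prod_append, ih,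
      Finset.prod_range_succ]
    simp

/-- Jensen polynomials with all roots nonnegative give the multiplier property. -/
theorem Tn_RR_of_prod (n : ℕ) (γ : ℕ → ℝ) (a : ℝ) (r : ℕ → ℝ) (hr : ∀ i < n, 0 ≤ r i)
    (h : jp n γ = C a * ∏ i ∈ range n, (X - C (r i))) (p : ℝ[X]) (hp : RR p)
    (hdeg : p.natDegree ≤ n) : RR (Tn n γ p) := by
  refine comp_nonneg n γ (a * (-1) ^ n) ((List.range n).map r) (by simp) ?_ ?_ p hp hdeg
  · intro α hα
    obtain ⟨i, hi, rfl⟩ := List.mem_map.mp hα
    exact hr i (List.mem_range.mp hi)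
  · intro k hk
    have h1 := list_prod_range n r
    have h2 : (∏ i ∈ range n, (X - C (r i))).comp (-X) =
        C ((-1) ^ n) * ∏ i ∈ range n, (X + C (r i)) := by
      rw [Polynomial.prod_comp]
      have : ∀ i ∈ range n, (X - C (r i)).comp (-X) = C (-1) * (X + C (r i)) := by
        intro i _
        simp only [sub_comp, X_comp, C_comp, C_neg, map_one]
        ring
      rw [Finset.prod_congr rfl this, Finset.prod_mul_distrib, Finset.prod_const, card_range,
        map_pow]
    have h3 : (jp n γ).comp (-X) = C (a * (-1) ^ n) * ∏ i ∈ range n, (X + C (r i)) := by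
      rw [h, mul_comp, C_comp, h2, C_mul, mul_assoc]
    have h4 : ((jp n γ).comp (-X)).coeff k = (n.choose k : ℝ) * γ k := by
      have e : (jp n γ).comp (-X) = ∑ k ∈ range (n + 1), C ((n.choose k : ℝ) * γ k) * X ^ k := by
        unfold jp
        rw [Polynomial.sum_comp]
        refine Finset.sum_congr rfl fun j _ => ?_
        rw [mul_comp, C_comp, pow_comp, X_comp]
        rcases Nat.even_or_odd j with he | ho
        · rw [he.neg_one_pow, he.neg_pow, mul_one]
        · rw [ho.neg_one_pow, ho.neg_pow]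
          simp only [C_mul, C_neg, map_one]
          ring
      rw [e, finsetSum_coeff]
      simp only [coeff_C_mul_X_pow]
      rw [Finset.sum_eq_single k]
      · simp
      · intro j _ hj
        rw [if_neg (Ne.symm hj)]
      · intro hh; exact absurd (mem_range.mpr (by omega)) hh
    rw [← h4, h3, coeff_C_mul, h1]

/-- The main criterion. -/
theorem mult_crit (c γ : ℕ → ℝ) (hc : ∀ k, 0 < c k) (hγ : ∀ k, 0 ≤ γ k)
    (H : ∀ n, ∃ t : ℕ → ℝ, (∀ i j, i < j → j < n → t i < t j) ∧ (∀ i < n, 0 ≤ t i) ∧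
      (∀ i < n, 0 < (-1 : ℝ) ^ i * (jp n c).eval (t i)) ∧
      (∀ i < n, 0 ≤ (-1 : ℝ) ^ i * (jp n γ).eval (t i))) : Mult γ := by
  refine mult_of_tendsto (g := fun ε k => γ k + ε * c k) ?_ ?_
  · intro ε hε n p hp hdeg
    obtain ⟨t, ht1, ht2, ht3, ht4⟩ := H n
    have hjp : jp n (fun k => γ k + ε * c k) = jp n γ + C ε * jp n c := by
      ext k
      rw [coeff_add, coeff_C_mul, coeff_jp, coeff_jp, coeff_jp]
      ring
    obtain ⟨r, hr1, -, hr3⟩ := roots_of_signs n (jp n (fun k => γ k + ε * c k))
      (natDegree_jp _ _) t ht1 (by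
        intro i hi
        rw [hjp, eval_add, eval_mul, eval_C, mul_add]
        have h1 := ht4 i hi
        have h2 := mul_pos hε (ht3 i hi)
        have h3 : (-1 : ℝ) ^ i * (ε * eval (t i) (jp n c)) =
            ε * ((-1 : ℝ) ^ i * eval (t i) (jp n c)) := by ring
        rw [h3]; linarith) (by
        rw [coeff_jp, Nat.choose_self]
        have h1 : (-1 : ℝ) ^ n * (-1) ^ n = 1 := by rw [← mul_pow]; simp
        have h2 : (-1 : ℝ) ^ n * (((1 : ℕ) : ℝ) * (γ n + ε * c n) * (-1) ^ n) =
            γ n + ε * c n := by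
          push_cast; linear_combination (γ n + ε * c n) * h1
        rw [h2]
        have := mul_pos hε (hc n)
        linarith [hγ n])
    exact Tn_RR_of_prod n _ _ r (fun i hi => (ht2 i hi).trans (hr1 i hi).le) hr3 p hp hdeg
  · intro k
    have h1 : Tendsto (fun ε : ℝ => γ k + ε * c k) (𝓝 0) (𝓝 (γ k + 0 * c k)) :=
      (continuous_const.add (continuous_id.mul continuous_const)).tendsto 0
    rw [zero_mul, add_zero] at h1
    exact h1.mono_left nhdsWithin_le_nhds

end Pool.Agent.V1175.MS
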