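import Mathlib
import Pool.Agent.V1175.MS.Signs

/-!
# Polynomials of Laguerre: zeros, and the monotonicity of successive extrema
-/

set_option autoImplicit false

namespace Pool.Agent.V1175.MS

open Polynomial Finset Filter Topology

/-- The weights `1 / Γ(k + α + 1)`. -/
noncomputable def lag (α : ℝ) (k : ℕ) : ℝ := 1 / Real.Gamma (k + α + 1)

lemma lag_pos {α : ℝ} (hα : -1 < α) (k : ℕ) : 0 < lag α k := by
  unfold lag
  have h : (0 : ℝ) < k + α + 1 := by
    have : (0 : ℝ) ≤ k := Nat.cast_nonneg k
    linarith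
  exact one_div_pos.mpr (Real.Gamma_pos_of_pos h)

lemma lag_succ {α : ℝ} (hα : -1 < α) (k : ℕ) :
    lag α k = ((k : ℝ) + 1 + α) * lag α (k + 1) := by
  unfold lag
  have h : (0 : ℝ) < k + α + 1 := by
    have : (0 : ℝ) ≤ k := Nat.cast_nonneg k
    linarith
  have h2 : ((k + 1 : ℕ) : ℝ) + α + 1 = (k + α + 1) + 1 := by push_cast; ring
  rw [h2, Real.Gamma_add_one h.ne']
  have h3 := (Real.Gamma_pos_of_pos h).ne'
  field_simp
  ring

lemma choose_rel (n k : ℕ) :
    ((k : ℝ) + 1) * (n.choose (k + 1) : ℝ) = ((n : ℝ) - k) * (n.choose k : ℝ) := by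
  have h := Nat.add_one_mul_choose_eq n k
  rw [Nat.choose_succ_succ] at h
  have h2 : (((n + 1) * n.choose k : ℕ) : ℝ) =
      (((n.choose k + n.choose (k + 1)) * (k + 1) : ℕ) : ℝ) := by exact_mod_cast h
  push_cast at h2
  linear_combination -h2

lemma lag_rec {α : ℝ} (hα : -1 < α) (n : ℕ) :
    C ((n : ℝ) + α + 1) * jp (n + 1) (lag α) =
      X * derivative (jp n (lag α)) + (C ((n : ℝ) + α + 1) - X) * jp n (lag α) := by
  ext k
  rw [sub_mul, coeff_add, coeff_sub, coeff_C_mul, coeff_C_mul, coeff_jp, coeff_jp]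
  cases k with
  | zero => simp
  | succ k =>
    rw [coeff_X_mul, coeff_X_mul, coeff_derivative, coeff_jp, coeff_jp, lag_succ hα k,
      Nat.choose_succ_succ]
    have h := choose_rel n k
    push_cast
    rw [pow_succ]
    linear_combination (-1 : ℝ) ^ k * lag α (k + 1) * h

lemma sign_prod (z : ℕ → ℝ) (y : ℝ) (i : ℕ) (h1 : ∀ j < i, z j < y) :
    ∀ n, i ≤ n → (∀ j, i ≤ j → j < n → y < z j) →
      0 < (-1 : ℝ) ^ (n + i) * ∏ j ∈ range n, (y - z j) := by
  intro n hn
  induction n, hn using Nat.le_induction with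
  | base =>
    intro _
    rw [← two_mul, pow_mul]
    simp only [even_two, Even.neg_pow, one_pow, one_mul]
    exact Finset.prod_pos fun j hj => sub_pos.mpr (h1 j (mem_range.mp hj))
  | succ n hn ih =>
    intro h2
    have h3 := ih fun j hj hjn => h2 j hj (by omega)
    have h4 : y < z n := h2 n hn (Nat.lt_succ_self n)
    rw [Finset.prod_range_succ]
    have h5 : (-1 : ℝ) ^ (n + 1 + i) * ((∏ j ∈ range n, (y - z j)) * (y - z n)) =
        ((-1 : ℝ) ^ (n + i) * ∏ j ∈ range n, (y - z j)) * (z n - y) := by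
      have : (-1 : ℝ) ^ (n + 1 + i) = -(-1 : ℝ) ^ (n + i) := by
        rw [show n + 1 + i = (n + i) + 1 by ring, pow_succ]; ring
      rw [this]; ring
    rw [h5]
    exact mul_pos h3 (sub_pos.mpr h4)

lemma sign_prod_erase (z : ℕ → ℝ) (i : ℕ) (h1 : ∀ j < i, z j < z i) :
    ∀ n, i + 1 ≤ n → (∀ j, i < j → j < n → z i < z j) →
      0 < (-1 : ℝ) ^ (n + i + 1) * ∏ j ∈ (range n).erase i, (z i - z j) := by
  intro n hn
  induction n, hn using Nat.le_induction with
  | base =>
    intro _
    rw [show i + 1 + i + 1 = 2 * (i + 1) by ring, pow_mul]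
    simp only [even_two, Even.neg_pow, one_pow, one_mul]
    apply Finset.prod_pos
    intro j hj
    rw [mem_erase, mem_range] at hj
    exact sub_pos.mpr (h1 j (by omega))
  | succ n hn ih =>
    intro h2
    have h3 := ih fun j hj hjn => h2 j hj (by omega)
    have h4 : z i < z n := h2 n (by omega) (Nat.lt_succ_self n)
    have h6 : (range (n + 1)).erase i = insert n ((range n).erase i) := by
      ext j
      simp only [mem_erase, mem_range, mem_insert]
      omega
    have h7 : n ∉ (range n).erase i := by simp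
    rw [h6, Finset.prod_insert h7]
    have h5 : (-1 : ℝ) ^ (n + 1 + i + 1) * ((z i - z n) * ∏ j ∈ (range n).erase i, (z i - z j)) =
        ((-1 : ℝ) ^ (n + i + 1) * ∏ j ∈ (range n).erase i, (z i - z j)) * (z n - z i) := by
      have : (-1 : ℝ) ^ (n + 1 + i + 1) = -(-1 : ℝ) ^ (n + i + 1) := by
        rw [show n + 1 + i + 1 = (n + i + 1) + 1 by ring, pow_succ]; ring
      rw [this]; ring
    rw [h5]
    exact mul_pos h3 (sub_pos.mpr h4)

lemma neg_one_sq (n : ℕ) : (-1 : ℝ) ^ n * (-1) ^ n = 1 := by rw [← mul_pow]; simp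

/-- The zeros of the polynomials of Laguerre. -/
theorem lag_roots {α : ℝ} (hα : -1 < α) (n : ℕ) : ∃ z : ℕ → ℝ, (∀ i < n, 0 < z i) ∧
    (∀ i j, i < j → j < n → z i < z j) ∧
    jp n (lag α) = C (lag α n * (-1) ^ n) * ∏ i ∈ range n, (X - C (z i)) := by
  induction n with
  | zero =>
    refine ⟨fun _ => 0, by simp, by simp, ?_⟩
    simp [jp]
  | succ n ih =>
    obtain ⟨z, hz0, hzm, hz⟩ := ih
    set u := jp n (lag α) with hu
    have hna : (0 : ℝ) < n + α + 1 := by
      have : (0 : ℝ) ≤ n := Nat.cast_nonneg n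
      linarith
    set t : ℕ → ℝ := fun i => if i = 0 then 0 else z (i - 1) with ht
    have ht0 : t 0 = 0 := by simp [ht]
    have hts : ∀ i, t (i + 1) = z i := by intro i; simp [ht]
    have hcoef : (jp (n + 1) (lag α)).coeff (n + 1) = lag α (n + 1) * (-1) ^ (n + 1) := by
      rw [coeff_jp, Nat.choose_self]; push_cast; ring
    obtain ⟨r, hr1, hr2, hr3⟩ := roots_of_signs (n + 1) (jp (n + 1) (lag α)) (natDegree_jp _ _) t
      (by
        intro i j hij hj
        cases j with
        | zero => omega
        | succ j =>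
          rw [hts]
          cases i with
          | zero => rw [ht0]; exact hz0 j (by omega)
          | succ i => rw [hts]; exact hzm i j (by omega) (by omega))
      (by
        intro i hi
        cases i with
        | zero =>
          rw [ht0, pow_zero, one_mul, ← coeff_zero_eq_eval_zero, coeff_jp]
          simpa using lag_pos hα 0
        | succ i =>
          rw [hts]
          have hi' : i < n := by omega
          have hrec := congrArg (eval (z i)) (lag_rec hα n)
          simp only [eval_mul, eval_add, eval_sub, eval_C, eval_X] at hrec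
          have hroot : eval (z i) u = 0 := by
            rw [hz, eval_mul, eval_prod, Finset.prod_eq_zero (mem_range.mpr hi') (by simp),
              mul_zero]
          have hder : eval (z i) (derivative u) =
              lag α n * (-1) ^ n * ∏ j ∈ (range n).erase i, (z i - z j) := by
            rw [hz, derivative_C_mul, eval_mul, eval_C, derivative_prod_finset, eval_finsetSum]
            congr 1
            rw [Finset.sum_eq_single i]
            · simp [eval_prod]
            · intro j _ hji
              rw [eval_mul, eval_prod, Finset.prod_eq_zero (i := i), zero_mul]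
              · rw [mem_erase]; exact ⟨Ne.symm hji, mem_range.mpr hi'⟩
              · simp
            · intro h; exact absurd (mem_range.mpr hi') h
          rw [hroot, mul_zero, add_zero, hder] at hrec
          have hsg := sign_prod_erase z i (fun j hj => hzm j i hj hi') n (by omega)
            (fun j hj hjn => hzm i j hj hjn)
          have hE : eval (z i) (jp (n + 1) (lag α)) = z i * (lag α n * (-1) ^ n *
              ∏ j ∈ (range n).erase i, (z i - z j)) / (n + α + 1) := by
            rw [eq_div_iff hna.ne']; linarith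
          rw [hE]
          have e : (-1 : ℝ) ^ (i + 1) * (z i * (lag α n * (-1) ^ n *
              ∏ j ∈ (range n).erase i, (z i - z j)) / (n + α + 1)) =
              (z i * lag α n / (n + α + 1)) *
                ((-1 : ℝ) ^ (n + i + 1) * ∏ j ∈ (range n).erase i, (z i - z j)) := by
            rw [show n + i + 1 = n + (i + 1) by ring, pow_add]
            ring
          rw [e]
          have := hz0 i hi'
          have := lag_pos hα n
          positivity)
      (by
        rw [hcoef]
        have h1 := neg_one_sq (n + 1)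
        have h2 : (-1 : ℝ) ^ (n + 1) * (lag α (n + 1) * (-1) ^ (n + 1)) = lag α (n + 1) := by
          linear_combination lag α (n + 1) * h1
        rw [h2]
        exact lag_pos hα _)
    refine ⟨r, ?_, ?_, ?_⟩
    · intro i hi
      have h1 := hr1 i hi
      have h2 : 0 ≤ t i := by
        cases i with
        | zero => rw [ht0]
        | succ i => rw [hts]; exact (hz0 i (by omega)).le
      linarith
    · intro i j hij hj
      have h1 := hr2 i (by omega)
      have h2 := hr1 j hj
      have h3 : t (i + 1) ≤ t j := by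
        cases j with
        | zero => omega
        | succ j =>
          rw [hts, hts]
          rcases Nat.lt_or_ge i j with h | h
          · exact (hzm i j h (by omega)).le
          · have : i = j := by omega
            rw [this]
      linarith
    · rw [← hcoef]; exact hr3

/-- The sign between two zeros. -/
lemma lag_sign {α : ℝ} (hα : -1 < α) (n : ℕ) (z : ℕ → ℝ)
    (hz : jp n (lag α) = C (lag α n * (-1) ^ n) * ∏ i ∈ range n, (X - C (z i)))
    (y : ℝ) (i : ℕ) (hi : i ≤ n) (h1 : ∀ j < i, z j < y) (h2 : ∀ j, i ≤ j → j < n → y < z j) :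
    0 < (-1 : ℝ) ^ i * (jp n (lag α)).eval y := by
  have hs := sign_prod z y i h1 n hi h2
  rw [hz, eval_mul, eval_C, eval_prod]
  have e : (-1 : ℝ) ^ i * (lag α n * (-1) ^ n * ∏ j ∈ range n, eval y (X - C (z j))) =
      lag α n * ((-1 : ℝ) ^ (n + i) * ∏ j ∈ range n, (y - z j)) := by
    simp only [eval_sub, eval_X, eval_C]
    rw [pow_add]; ring
  rw [e]
  exact mul_pos (lag_pos hα n) hs

lemma sonin_alg {A B y w0 w1 w2 p0 : ℝ} (hD : A + B * y ≠ 0)
    (hE : y ^ 2 * w2 + y * (p0 - y) * w1 + (A + B * y) * w0 = 0) :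
    ((2 : ℕ) : ℝ) * w0 ^ (2 - 1) * w1 +
      ((2 * y * w1 ^ 2 + y ^ 2 * (((2 : ℕ) : ℝ) * w1 ^ (2 - 1) * w2)) * (A + B * y)
        - y ^ 2 * w1 ^ 2 * B) / (A + B * y) ^ 2 =
    w1 ^ 2 * y / (A + B * y) * (2 - 2 * p0 + 2 * y - B * y / (A + B * y)) := by
  generalize hDD : A + B * y = D at *
  have e1 : w1 ^ 2 * y / D * (2 - 2 * p0 + 2 * y - B * y / D) =
      (w1 ^ 2 * y * ((2 - 2 * p0 + 2 * y) * D - B * y)) / D ^ 2 := by
    field_simp
  have e2 : ((2 : ℕ) : ℝ) * w0 ^ (2 - 1) * w1 +
      ((2 * y * w1 ^ 2 + y ^ 2 * (((2 : ℕ) : ℝ) * w1 ^ (2 - 1) * w2)) * D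
        - y ^ 2 * w1 ^ 2 * B) / D ^ 2 =
      (2 * w0 * w1 * D ^ 2 + ((2 * y * w1 ^ 2 + y ^ 2 * (2 * w1 * w2)) * D
        - y ^ 2 * w1 ^ 2 * B)) / D ^ 2 := by
    have : D ^ 2 ≠ 0 := pow_ne_zero 2 hD
    rw [add_div, mul_div_assoc (2 * w0 * w1), div_self this]
    norm_num
  rw [e1, e2]
  congr 1
  linear_combination (2 * w1 * D) * hE

/-- Sonin's function: the moduli of the successive extrema increase. -/
theorem sonin (v : ℝ[X]) (p0 A B : ℝ) (hA : 0 ≤ A) (hB : 0 ≤ B) (hAB : 0 < A + B)
    (hp0 : p0 ≤ 1 / 2)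
    (hode : X ^ 2 * derivative (derivative v) + X * (C p0 - X) * derivative v +
      (C A + C B * X) * v = 0)
    (y0 : ℝ) (hy0 : 0 < y0) (hcrit : (derivative v).eval y0 = 0) (y : ℝ) (hy : 0 ≤ y)
    (hyy : y ≤ y0) : v.eval y ^ 2 ≤ v.eval y0 ^ 2 := by
  set F : ℝ → ℝ := fun y => v.eval y ^ 2 + y ^ 2 * (derivative v).eval y ^ 2 / (A + B * y) with hF
  have hden : ∀ y : ℝ, 0 < y → 0 < A + B * y := by
    intro y hy
    rcases hA.eq_or_lt with h | h
    · rw [← h] at hAB ⊢
      have : 0 < B := by linarith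
      rw [zero_add]; positivity
    · have : 0 ≤ B * y := by positivity
      linarith
  have hderiv : ∀ y : ℝ, 0 < y → HasDerivAt F
      ((derivative v).eval y ^ 2 * y / (A + B * y) *
        (2 - 2 * p0 + 2 * y - B * y / (A + B * y))) y := by
    intro y hy
    have hd := hden y hy
    have h1 : HasDerivAt (fun y => v.eval y) ((derivative v).eval y) y := v.hasDerivAt y
    have h2 : HasDerivAt (fun y => (derivative v).eval y) ((derivative (derivative v)).eval y) y :=
      (derivative v).hasDerivAt y
    have h3 : HasDerivAt (fun y : ℝ => A + B * y) B y := by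
      simpa using ((hasDerivAt_id y).const_mul B).const_add A
    have h5 : HasDerivAt (fun y : ℝ => y ^ 2) (2 * y) y := by
      simpa using hasDerivAt_pow 2 y
    have hE := congrArg (eval y) hode
    simp only [eval_add, eval_mul, eval_pow, eval_X, eval_sub, eval_C, eval_zero] at hE
    have h6 := (h1.fun_pow 2).fun_add ((h5.fun_mul (h2.fun_pow 2)).fun_div h3 hd.ne')
    refine h6.congr_deriv ?_
    set w0 := eval y v
    set w1 := eval y (derivative v)
    set w2 := eval y (derivative (derivative v))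
    exact sonin_alg hd.ne' hE
  have hmono : MonotoneOn F (Set.Ioi 0) := by
    apply monotoneOn_of_deriv_nonneg (convex_Ioi 0)
    · intro x hx
      exact (hderiv x hx).continuousAt.continuousWithinAt
    · intro x hx
      rw [interior_Ioi] at hx
      exact (hderiv x hx).differentiableAt.differentiableWithinAt
    · intro x hx
      rw [interior_Ioi] at hx
      rw [(hderiv x hx).deriv]
      have hx0 : 0 < x := hx
      have hd := hden x hx0
      apply mul_nonneg (by positivity)
      have h1 : B * x / (A + B * x) ≤ 1 := by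
        rw [div_le_one hd]; linarith
      linarith
  have hpos : ∀ y : ℝ, 0 < y → y ≤ y0 → v.eval y ^ 2 ≤ v.eval y0 ^ 2 := by
    intro y hy hyy
    have h1 := hmono (show y ∈ Set.Ioi (0 : ℝ) from hy) (show y0 ∈ Set.Ioi (0 : ℝ) from hy0) hyy
    simp only [hF] at h1
    rw [hcrit] at h1
    have hd := hden y hy
    have h2 : 0 ≤ y ^ 2 * (derivative v).eval y ^ 2 / (A + B * y) := by positivity
    have h3 : y0 ^ 2 * (0 : ℝ) ^ 2 / (A + B * y0) = 0 := by simp
    rw [h3] at h1
    linarith
  rcases hy.eq_or_lt with h | h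
  · rw [← h]
    have h1 : Tendsto (fun y => v.eval y ^ 2) (𝓝[>] 0) (𝓝 (v.eval 0 ^ 2)) := by
      have : Continuous fun y => v.eval y ^ 2 := v.continuous.pow 2
      exact (this.tendsto 0).mono_left nhdsWithin_le_nhds
    refine le_of_tendsto h1 ?_
    filter_upwards [Ioo_mem_nhdsGT hy0] with x hx
    exact hpos x hx.1 hx.2.le
  · exact hpos y h hyy

/-- Rolle. -/
lemma rolle (v : ℝ[X]) (a b : ℝ) (hab : a < b) (ha : v.eval a = 0) (hb : v.eval b = 0) :
    ∃ t, a < t ∧ t < b ∧ (derivative v).eval t = 0 := by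
  obtain ⟨t, ht, hd⟩ := exists_hasDerivAt_eq_zero (f := fun x => v.eval x)
    (f' := fun x => (derivative v).eval x) hab v.continuous.continuousOn (by simp [ha, hb])
    (fun x _ => v.hasDerivAt x)
  exact ⟨t, ht.1, ht.2, hd⟩

/-- The differential equation of Laguerre. -/
lemma lag_ode {α : ℝ} (hα : -1 < α) (n : ℕ) :
    X * derivative (derivative (jp n (lag α))) + (C (α + 1) - X) * derivative (jp n (lag α)) +
      C (n : ℝ) * jp n (lag α) = 0 := by
  ext k
  rw [sub_mul, coeff_add, coeff_add, coeff_sub, coeff_C_mul, coeff_C_mul, coeff_zero, coeff_jp]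
  cases k with
  | zero =>
    rw [coeff_X_mul_zero, coeff_X_mul_zero, coeff_derivative, coeff_jp, lag_succ hα 0]
    simp
    ring
  | succ k =>
    rw [coeff_X_mul, coeff_X_mul, coeff_derivative, coeff_derivative, coeff_derivative, coeff_jp,
      coeff_jp, lag_succ hα (k + 1)]
    have h := choose_rel n (k + 1)
    push_cast at h ⊢
    rw [pow_succ (-1 : ℝ) (k + 1)]
    linear_combination -((k : ℝ) + 1 + 1 + α) * (-1 : ℝ) ^ (k + 1) * lag α (k + 1 + 1) * h

end Pool.Agent.V1175.MS
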