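import Mathlib
import Pool.Agent.V1175.MS.Lag

/-!
# The sequence `log(k+2)/k!` is a multiplier sequence
-/

set_option autoImplicit false

namespace Pool.Agent.V1175.MS

open Polynomial Finset Filter Topology MeasureTheory


lemma integral_rpow_one {r : ℝ} (hr : 0 ≤ r) : ∫ s in (0:ℝ)..1, s ^ r = 1 / (r + 1) := by
  rw [integral_rpow (Or.inl (by linarith))]
  rw [Real.one_rpow, Real.zero_rpow (by linarith), sub_zero]

lemma log_deriv_nonneg (n : ℕ) (q : ℕ → ℝ)
    (hQ : ∀ s : ℝ, 0 ≤ s → s ≤ 1 →
      s * ∑ k ∈ range (n + 1), q k * s ^ k ≤ ∑ k ∈ range (n + 1), q k) {x : ℝ} (hx : 0 ≤ x) :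
    0 ≤ ∑ k ∈ range (n + 1), q k * (1 / (1 + x) - 1 / (k + 2 + x)) := by
  have hint : ∀ r : ℝ, 0 ≤ r → IntervalIntegrable (fun s : ℝ => s ^ r) volume 0 1 := by
    intro r hr
    exact intervalIntegral.intervalIntegrable_rpow (Or.inl hr)
  have h1 : ∑ k ∈ range (n + 1), q k * (1 / (1 + x) - 1 / (k + 2 + x)) =
      ∫ s in (0:ℝ)..1, (∑ k ∈ range (n + 1), (q k * s ^ x - q k * s ^ (x + k + 1))) := by
    rw [intervalIntegral.integral_finsetSum]
    · refine Finset.sum_congr rfl fun k _ => ?_
      have hk : (0 : ℝ) ≤ x + k + 1 := by positivity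
      rw [intervalIntegral.integral_sub ((hint x hx).const_mul _) ((hint _ hk).const_mul _),
        intervalIntegral.integral_const_mul, intervalIntegral.integral_const_mul,
        integral_rpow_one hx, integral_rpow_one hk]
      rw [mul_sub]
      congr 2
      · rw [add_comm]
      · congr 1; ring
    · intro k _
      have hk : (0 : ℝ) ≤ x + k + 1 := by positivity
      exact ((hint x hx).const_mul _).sub ((hint _ hk).const_mul _)
  rw [h1, intervalIntegral.integral_of_le zero_le_one]
  apply setIntegral_nonneg measurableSet_Ioc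
  intro s hs
  have hs0 : 0 < s := hs.1
  have h2 : ∑ k ∈ range (n + 1), (q k * s ^ x - q k * s ^ (x + k + 1)) =
      s ^ x * (∑ k ∈ range (n + 1), q k - s * ∑ k ∈ range (n + 1), q k * s ^ k) := by
    rw [mul_sub, Finset.mul_sum, Finset.mul_sum, Finset.mul_sum, ← Finset.sum_sub_distrib]
    refine Finset.sum_congr rfl fun k _ => ?_
    have : s ^ (x + k + 1) = s ^ x * s ^ k * s := by
      rw [Real.rpow_add hs0, Real.rpow_add hs0, Real.rpow_natCast, Real.rpow_one]
    rw [this]; ring
  rw [h2]
  exact mul_nonneg (Real.rpow_nonneg hs0.le _) (sub_nonneg.mpr (hQ s hs0.le hs.2))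

/-- Positivity of the functional given by `log (k + 2)`. -/
lemma log_functional (n : ℕ) (q : ℕ → ℝ)
    (hQ : ∀ s : ℝ, 0 ≤ s → s ≤ 1 →
      s * ∑ k ∈ range (n + 1), q k * s ^ k ≤ ∑ k ∈ range (n + 1), q k) :
    0 ≤ ∑ k ∈ range (n + 1), q k * Real.log (k + 2) := by
  set Φ : ℝ → ℝ := fun x => ∑ k ∈ range (n + 1),
    q k * (Real.log (k + 2) + Real.log (1 + x) - Real.log (k + 2 + x)) with hΦ
  have hd : ∀ x : ℝ, 0 ≤ x → HasDerivAt Φ
      (∑ k ∈ range (n + 1), q k * (1 / (1 + x) - 1 / (k + 2 + x))) x := by
    intro x hx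
    simp only [hΦ]
    apply HasDerivAt.fun_sum
    intro k _
    apply HasDerivAt.const_mul
    have h1 : HasDerivAt (fun x : ℝ => Real.log (1 + x)) (1 / (1 + x)) x := by
      have := ((hasDerivAt_id x).const_add 1).log (by simp only [id]; positivity)
      simpa using this
    have h2 : HasDerivAt (fun x : ℝ => Real.log (k + 2 + x)) (1 / (k + 2 + x)) x := by
      have := ((hasDerivAt_id x).const_add ((k : ℝ) + 2)).log (by simp only [id]; positivity)
      simpa using this
    exact (h1.const_add _).sub h2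
  have hmono : MonotoneOn Φ (Set.Ici 0) := by
    apply monotoneOn_of_deriv_nonneg (convex_Ici 0)
    · intro x hx
      exact (hd x hx).continuousAt.continuousWithinAt
    · intro x hx
      rw [interior_Ici] at hx
      exact (hd x hx.le).differentiableAt.differentiableWithinAt
    · intro x hx
      rw [interior_Ici] at hx
      rw [(hd x hx.le).deriv]
      exact log_deriv_nonneg n q hQ hx.le
  have h0 : Φ 0 = 0 := by
    simp only [hΦ]
    apply Finset.sum_eq_zero
    intro k _
    simp
  have hlim : Tendsto Φ atTop (𝓝 (∑ k ∈ range (n + 1), q k * Real.log (k + 2))) := by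
    simp only [hΦ]
    apply tendsto_finsetSum
    intro k _
    apply Tendsto.const_mul
    have h1 : Tendsto (fun x : ℝ => Real.log ((k + 2 + x) / (1 + x))) atTop (𝓝 0) := by
      have h2 : Tendsto (fun x : ℝ => (k + 2 + x) / (1 + x)) atTop (𝓝 1) := by
        have h3 : Tendsto (fun x : ℝ => 1 + ((k : ℝ) + 1) / (1 + x)) atTop (𝓝 (1 + 0)) := by
          apply Tendsto.const_add
          apply Tendsto.div_atTop tendsto_const_nhds
          exact tendsto_atTop_add_const_left _ _ tendsto_id
        rw [add_zero] at h3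
        refine h3.congr' ?_
        filter_upwards [eventually_gt_atTop (0 : ℝ)] with x hx
        field_simp
        ring
      have h4 := (Real.continuousAt_log (one_ne_zero)).tendsto.comp h2
      rw [Real.log_one] at h4
      exact h4
    have h5 : Tendsto (fun x : ℝ => Real.log (k + 2) - Real.log ((k + 2 + x) / (1 + x))) atTop
        (𝓝 (Real.log (k + 2) - 0)) := h1.const_sub _
    rw [sub_zero] at h5
    refine h5.congr' ?_
    filter_upwards [eventually_gt_atTop (0 : ℝ)] with x hx
    rw [Real.log_div (by positivity) (by positivity)]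
    ring
  refine ge_of_tendsto hlim ?_
  filter_upwards [eventually_ge_atTop (0 : ℝ)] with x hx
  have := hmono (Set.mem_Ici.mpr le_rfl) (Set.mem_Ici.mpr hx) hx
  rw [h0] at this
  exact this

lemma eval_scale (p : ℝ[X]) (n : ℕ) (hp : p.natDegree ≤ n) (t s : ℝ) :
    p.eval (t * s) = ∑ k ∈ range (n + 1), (p.coeff k * t ^ k) * s ^ k := by
  rw [eval_eq_sum_range' (lt_of_le_of_lt hp (Nat.lt_succ_self n))]
  refine Finset.sum_congr rfl fun k _ => ?_
  rw [mul_pow]; ring

theorem lag_zero_eq (k : ℕ) : lag 0 k = 1 / (k.factorial : ℝ) := by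
  unfold lag
  rw [add_zero, Real.Gamma_nat_eq_factorial]

/-- `log (k + 2) / k!` is a multiplier sequence. -/
theorem log_mult : Mult (fun k => Real.log (k + 2) / (k.factorial : ℝ)) := by
  have hα : (-1 : ℝ) < 0 := by norm_num
  refine mult_crit (lag 0) _ (lag_pos hα) (fun k => ?_) ?_
  · apply div_nonneg (Real.log_nonneg _) (by positivity)
    have : (0 : ℝ) ≤ k := Nat.cast_nonneg k
    linarith
  intro n
  obtain ⟨z, hz0, hzm, hz⟩ := lag_roots hα n
  set u := jp n (lag 0) with hu
  set v : ℝ[X] := X * u with hv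
  have hroot : ∀ i < n, u.eval (z i) = 0 := by
    intro i hi
    rw [hz, eval_mul, eval_prod, Finset.prod_eq_zero (mem_range.mpr hi) (by simp), mul_zero]
  have hode := lag_ode hα n
  rw [← hu, zero_add] at hode
  have hodev : X ^ 2 * derivative (derivative v) + X * (C (-1) - X) * derivative v +
      (C 1 + C ((n : ℝ) + 1) * X) * v = 0 := by
    rw [hv]
    simp only [derivative_mul, derivative_X, derivative_add, one_mul, C_add, C_neg, map_one,
      map_one] at hode ⊢
    linear_combination (X ^ 2 : ℝ[X]) * hode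
  -- the critical points
  set a : ℕ → ℝ := fun i => if i = 0 then 0 else z (i - 1) with ha
  have ha0 : a 0 = 0 := by simp [ha]
  have has : ∀ i, a (i + 1) = z i := by intro i; simp [ha]
  have hva : ∀ i < n, v.eval (a i) = 0 := by
    intro i hi
    rw [hv, eval_mul, eval_X]
    cases i with
    | zero => rw [ha0, zero_mul]
    | succ i => rw [has, hroot i (by omega), mul_zero]
  have haz : ∀ i < n, a i < z i := by
    intro i hi
    cases i with
    | zero => rw [ha0]; exact hz0 0 hi
    | succ i => rw [has]; exact hzm i (i + 1) (Nat.lt_succ_self i) hi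
  have ha0' : ∀ i < n, 0 ≤ a i := by
    intro i hi
    cases i with
    | zero => rw [ha0]
    | succ i => rw [has]; exact (hz0 i (by omega)).le
  have hex : ∀ i < n, ∃ t, a i < t ∧ t < z i ∧ (derivative v).eval t = 0 := by
    intro i hi
    apply rolle v (a i) (z i) (haz i hi) (hva i hi)
    rw [hv, eval_mul, hroot i hi, mul_zero]
  choose! t ht1 ht2 ht3 using hex
  have hsgn : ∀ i < n, 0 < (-1 : ℝ) ^ i * u.eval (t i) := by
    intro i hi
    apply lag_sign hα n z hz (t i) i hi.le
    · intro j hj
      have h1 : z j ≤ a i := by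
        cases i with
        | zero => omega
        | succ i =>
          rw [has]
          rcases Nat.lt_or_ge j i with h | h
          · exact (hzm j i h (by omega)).le
          · have : j = i := by omega
            rw [this]
      exact lt_of_le_of_lt h1 (ht1 i hi)
    · intro j hij hj
      have h1 : z i ≤ z j := by
        rcases hij.eq_or_lt with h | h
        · rw [h]
        · exact (hzm i j h hj).le
      exact lt_of_lt_of_le (ht2 i hi) h1
  refine ⟨t, ?_, ?_, hsgn, ?_⟩
  · intro i j hij hj
    have h1 := ht2 i (by omega)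
    have h2 := ht1 j hj
    have h3 : z i ≤ a j := by
      cases j with
      | zero => omega
      | succ j =>
        rw [has]
        rcases Nat.lt_or_ge i j with h | h
        · exact (hzm i j h (by omega)).le
        · have : i = j := by omega
          rw [this]
    linarith
  · intro i hi
    exact (ha0' i hi).trans (ht1 i hi).le
  · intro i hi
    have hti : 0 < t i := lt_of_le_of_lt (ha0' i hi) (ht1 i hi)
    set q : ℕ → ℝ := fun k => (-1 : ℝ) ^ i * (u.coeff k * t i ^ k) with hq
    have hQ : ∀ s : ℝ, ∑ k ∈ range (n + 1), q k * s ^ k = (-1 : ℝ) ^ i * u.eval (t i * s) := by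
      intro s
      rw [eval_scale u n (natDegree_jp _ _), Finset.mul_sum]
      refine Finset.sum_congr rfl fun k _ => ?_
      simp only [hq]; ring
    have hQ1 : ∑ k ∈ range (n + 1), q k = (-1 : ℝ) ^ i * u.eval (t i) := by
      have := hQ 1
      simpa using this
    have hfun := log_functional n q (by
      intro s hs0 hs1
      rw [hQ, hQ1]
      have h1 := sonin v (-1) 1 ((n : ℝ) + 1) (by norm_num) (by positivity) (by positivity)
        (by norm_num) hodev (t i) hti (ht3 i hi) (t i * s) (by positivity)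
        (by nlinarith)
      rw [hv, eval_mul, eval_mul, eval_X, eval_X, mul_pow (t i * s), mul_pow (t i) (eval (t i) u)] at h1
      have h2 : (s * u.eval (t i * s)) ^ 2 ≤ (u.eval (t i)) ^ 2 := by
        have h3 : t i ^ 2 * (s * u.eval (t i * s)) ^ 2 ≤ t i ^ 2 * (u.eval (t i)) ^ 2 := by
          calc t i ^ 2 * (s * u.eval (t i * s)) ^ 2 = (t i * s) ^ 2 * u.eval (t i * s) ^ 2 := by
                ring
            _ ≤ _ := h1
        exact le_of_mul_le_mul_left h3 (by positivity)
      have h4 : (s * ((-1 : ℝ) ^ i * u.eval (t i * s))) ^ 2 ≤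
          ((-1 : ℝ) ^ i * u.eval (t i)) ^ 2 := by
        have e1 : ((-1 : ℝ) ^ i) ^ 2 = 1 := by rw [← pow_mul, mul_comm, pow_mul]; simp
        calc (s * ((-1 : ℝ) ^ i * u.eval (t i * s))) ^ 2 =
              ((-1 : ℝ) ^ i) ^ 2 * (s * u.eval (t i * s)) ^ 2 := by ring
          _ = (s * u.eval (t i * s)) ^ 2 := by rw [e1, one_mul]
          _ ≤ (u.eval (t i)) ^ 2 := h2
          _ = ((-1 : ℝ) ^ i) ^ 2 * (u.eval (t i)) ^ 2 := by rw [e1, one_mul]
          _ = _ := by ring
      exact abs_le_of_sq_le_sq' h4 (hsgn i hi).le |>.2)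
    have hE : (-1 : ℝ) ^ i * (jp n fun k => Real.log (k + 2) / (k.factorial : ℝ)).eval (t i) =
        ∑ k ∈ range (n + 1), q k * Real.log (k + 2) := by
      rw [eval_eq_sum_range' (lt_of_le_of_lt (natDegree_jp _ _) (Nat.lt_succ_self n)),
        Finset.mul_sum]
      refine Finset.sum_congr rfl fun k _ => ?_
      simp only [hq]
      rw [coeff_jp, hu, coeff_jp, lag_zero_eq]
      ring
    rw [hE]
    exact hfun

end Pool.Agent.V1175.MS
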