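import Mathlib

/-!
# Integrals of antitone kernels; the kernel for `k^s Γ(k+1-s)/Γ(k+1)`
-/

set_option autoImplicit false

namespace Pool.Agent.V1175.MS

open Set Filter Topology MeasureTheory Real

/-- A positivity principle: an antitone nonnegative weight against a function with nonnegative
primitive. -/
theorem antitone_int (H : ℝ → ℝ) (hH : Antitone H) (M : ℝ) (h0 : ∀ t, 0 ≤ H t)
    (hM : ∀ t, H t ≤ M) (D : ℝ → ℝ) (hD : IntegrableOn D (Ioi 0))
    (hE : ∀ T : ℝ, 0 ≤ T → 0 ≤ ∫ t in (0:ℝ)..T, D t) : 0 ≤ ∫ t in Ioi (0:ℝ), H t * D t := by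
  have hM0 : 0 ≤ M := (h0 0).trans (hM 0)
  have hmeas : Measurable H := hH.measurable
  set S : Set (ℝ × ℝ) := {x | x.2 ≤ H x.1} with hS
  have hSm : MeasurableSet S := measurableSet_le measurable_snd (hmeas.comp measurable_fst)
  -- layer cake
  have h1 : ∀ t : ℝ, H t = ∫ l in Ioc 0 M, S.indicator (fun _ => (1:ℝ)) (t, l) := by
    intro t
    have e : ∀ l, S.indicator (fun _ => (1:ℝ)) (t, l) = (Iic (H t)).indicator (fun _ => (1:ℝ)) l := by
      intro l
      by_cases h : l ≤ H t
      · rw [indicator_of_mem (show (t, l) ∈ S from h), indicator_of_mem (show l ∈ Iic (H t) from h)]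
      · rw [indicator_of_notMem (show (t, l) ∉ S from h),
          indicator_of_notMem (show l ∉ Iic (H t) from h)]
    simp only [e]
    rw [setIntegral_indicator measurableSet_Iic]
    have e2 : Ioc 0 M ∩ Iic (H t) = Ioc 0 (H t) := by
      ext l
      simp only [mem_inter_iff, mem_Ioc, mem_Iic]
      constructor
      · rintro ⟨⟨h1, _⟩, h3⟩; exact ⟨h1, h3⟩
      · rintro ⟨h1, h3⟩; exact ⟨⟨h1, h3.trans (hM t)⟩, h3⟩
    rw [e2]
    simp [h0 t]
  have h2 : ∫ t in Ioi (0:ℝ), H t * D t =
      ∫ t in Ioi (0:ℝ), ∫ l in Ioc 0 M, S.indicator (fun _ => (1:ℝ)) (t, l) * D t := by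
    refine setIntegral_congr_fun measurableSet_Ioi fun t _ => ?_
    rw [integral_mul_const, ← h1]
  have hint : Integrable (Function.uncurry fun t l => S.indicator (fun _ => (1:ℝ)) (t, l) * D t)
      ((volume.restrict (Ioi (0:ℝ))).prod (volume.restrict (Ioc 0 M))) := by
    have h3 : Integrable (fun x : ℝ × ℝ => D x.1)
        ((volume.restrict (Ioi (0:ℝ))).prod (volume.restrict (Ioc 0 M))) := by
      have := hD.integrable.mul_prod (integrable_const (1:ℝ) (μ := volume.restrict (Ioc 0 M)))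
      simpa using this
    have h4 : (Function.uncurry fun t l => S.indicator (fun _ => (1:ℝ)) (t, l) * D t) =
        S.indicator (fun x : ℝ × ℝ => D x.1) := by
      ext ⟨t, l⟩
      by_cases h : (t, l) ∈ S
      · simp [Function.uncurry, indicator_of_mem h]
      · simp [Function.uncurry, indicator_of_notMem h]
    rw [h4]
    exact h3.indicator hSm
  rw [h2, integral_integral_swap hint]
  apply setIntegral_nonneg measurableSet_Ioc
  intro l _
  -- the inner integral
  set A : Set ℝ := {t | l ≤ H t} with hA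
  have hAm : MeasurableSet A := measurableSet_le measurable_const hmeas
  have e : ∀ t, S.indicator (fun _ => (1:ℝ)) (t, l) * D t = A.indicator D t := by
    intro t
    by_cases h : l ≤ H t
    · rw [indicator_of_mem (show (t, l) ∈ S from h), indicator_of_mem (show t ∈ A from h), one_mul]
    · rw [indicator_of_notMem (show (t, l) ∉ S from h),
        indicator_of_notMem (show t ∉ A from h), zero_mul]
  simp only [e]
  rw [setIntegral_indicator hAm]
  have hlow : ∀ t t', t' ≤ t → t ∈ A → t' ∈ A := fun t t' h ht => le_trans ht (hH h)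
  by_cases hb : BddAbove A
  · by_cases hne : A.Nonempty
    · set T := sSup A with hT
      rcases le_or_gt T 0 with hT0 | hT0
      · have : Ioi 0 ∩ A = ∅ := by
          ext t
          simp only [mem_inter_iff, mem_Ioi, mem_empty_iff_false, iff_false, not_and]
          intro ht htA
          have := le_csSup hb htA
          linarith
        rw [this]; simp
      · have hae : (Ioi 0 ∩ A : Set ℝ) =ᵐ[volume] Ioc 0 T := by
          have h5 : Ioo 0 T ⊆ Ioi 0 ∩ A := by
            intro t ht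
            refine ⟨ht.1, ?_⟩
            obtain ⟨t', ht', hlt⟩ := exists_lt_of_lt_csSup hne ht.2
            exact hlow t' t hlt.le ht'
          have h6 : Ioi 0 ∩ A ⊆ Ioc 0 T := by
            intro t ht
            exact ⟨ht.1, le_csSup hb ht.2⟩
          have h7 : (Ioo 0 T : Set ℝ) =ᵐ[volume] Ioc 0 T := Ioo_ae_eq_Ioc
          exact Filter.EventuallyLE.antisymm h6.eventuallyLE
            (h7.symm.le.trans h5.eventuallyLE)
        rw [setIntegral_congr_set hae, ← intervalIntegral.integral_of_le hT0.le]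
        exact hE T hT0.le
    · rw [not_nonempty_iff_eq_empty] at hne
      rw [hne]; simp
  · have hall : Ioi 0 ∩ A = Ioi (0:ℝ) := by
      ext t
      simp only [mem_inter_iff, and_iff_left_iff_imp]
      intro _
      rw [not_bddAbove_iff] at hb
      obtain ⟨t', ht', hlt⟩ := hb t
      exact hlow t' t hlt.le ht'
    rw [hall]
    have hl := intervalIntegral_tendsto_integral_Ioi (0:ℝ) hD tendsto_id
    refine ge_of_tendsto hl ?_
    filter_upwards [eventually_ge_atTop (0:ℝ)] with T hT
    exact hE T hT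

lemma beta_integrable {a b : ℝ} (ha : 0 < a) (hb : 0 < b) :
    IntegrableOn (fun x : ℝ => x ^ (a - 1) * (1 - x) ^ (b - 1)) (Ioo 0 1) := by
  have h := Complex.betaIntegral_convergent (u := (a : ℂ)) (v := (b : ℂ)) (by simpa) (by simpa)
  rw [intervalIntegrable_iff_integrableOn_Ioo_of_le zero_le_one] at h
  refine (h.re).congr ?_
  refine (ae_restrict_iff' measurableSet_Ioo).mpr (ae_of_all _ fun x hx => ?_)
  have h1 : ((x : ℂ) ^ ((a : ℂ) - 1) * (1 - (x : ℂ)) ^ ((b : ℂ) - 1)) =
      ((x ^ (a - 1) * (1 - x) ^ (b - 1) : ℝ) : ℂ) := by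
    rw [Complex.ofReal_mul, Complex.ofReal_cpow hx.1.le, Complex.ofReal_cpow (by linarith [hx.2])]
    push_cast
    rfl
  simp only
  rw [h1]
  simp

lemma beta_integral {a b : ℝ} (ha : 0 < a) (hb : 0 < b) :
    ∫ x in Ioo (0:ℝ) 1, x ^ (a - 1) * (1 - x) ^ (b - 1) = Gamma a * Gamma b / Gamma (a + b) := by
  have h := ProbabilityTheory.beta_eq_betaIntegralReal a b ha hb
  rw [ProbabilityTheory.beta] at h
  rw [h, Complex.betaIntegral, intervalIntegral.integral_of_le zero_le_one,
    ← integral_Ioc_eq_integral_Ioo]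
  have hc := Complex.betaIntegral_convergent (u := (a : ℂ)) (v := (b : ℂ)) (by simpa) (by simpa)
  rw [intervalIntegrable_iff_integrableOn_Ioc_of_le zero_le_one] at hc
  rw [← RCLike.re_eq_complex_re, ← integral_re hc]
  refine setIntegral_congr_fun measurableSet_Ioc fun x hx => ?_
  have h1 : ((x : ℂ) ^ ((a : ℂ) - 1) * (1 - (x : ℂ)) ^ ((b : ℂ) - 1)) =
      ((x ^ (a - 1) * (1 - x) ^ (b - 1) : ℝ) : ℂ) := by
    rw [Complex.ofReal_mul, Complex.ofReal_cpow hx.1.le, Complex.ofReal_cpow (by linarith [hx.2])]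
    push_cast
    rfl
  rw [h1]
  simp

/-- the map `σ ↦ e^{-σ}` -/
lemma exp_neg_image : (fun σ : ℝ => exp (-σ)) '' Ioi 0 = Ioo 0 1 := by
  ext r
  simp only [mem_image, mem_Ioi, mem_Ioo]
  constructor
  · rintro ⟨σ, hσ, rfl⟩
    exact ⟨exp_pos _, by rw [exp_lt_one_iff]; linarith⟩
  · rintro ⟨h0, h1⟩
    refine ⟨-log r, by have := log_neg h0 h1; linarith, ?_⟩
    rw [neg_neg, exp_log h0]

lemma exp_id (k s σ : ℝ) (hσ : 0 < σ) :
    |(-exp (-σ))| • (exp (-σ) ^ (k + 1 - s - 1) * (1 - exp (-σ)) ^ (s - 1)) =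
      exp (-(k * σ)) * (exp σ - 1) ^ (s - 1) := by
  have h1 : exp σ - 1 = exp σ * (1 - exp (-σ)) := by
    rw [mul_sub, mul_one, ← exp_add]; simp
  have h2 : 0 < 1 - exp (-σ) := by
    have : exp (-σ) < 1 := by rw [exp_lt_one_iff]; linarith
    linarith
  rw [h1, mul_rpow (exp_pos _).le h2.le, abs_neg, abs_of_pos (exp_pos _), smul_eq_mul,
    ← exp_mul, ← exp_mul, ← mul_assoc, ← mul_assoc, ← exp_add, ← exp_add]
  congr 2
  ring

lemma kern1_integrable {k s : ℝ} (hk : 0 < k + 1 - s) (hs : 0 < s) :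
    IntegrableOn (fun σ : ℝ => exp (-(k * σ)) * (exp σ - 1) ^ (s - 1)) (Ioi 0) := by
  have h := beta_integrable hk hs
  rw [← exp_neg_image] at h
  have h2 := (integrableOn_image_iff_integrableOn_abs_deriv_smul (f := fun σ : ℝ => exp (-σ))
    (f' := fun σ => -exp (-σ)) measurableSet_Ioi (fun σ _ => by
      have := ((hasDerivAt_id σ).neg.exp)
      refine HasDerivAt.hasDerivWithinAt ?_
      simpa using this) (fun x _ y _ h => by
      have := exp_injective h
      linarith) (fun x : ℝ => x ^ (k + 1 - s - 1) * (1 - x) ^ (s - 1))).mp h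
  refine h2.congr ?_
  refine (ae_restrict_iff' measurableSet_Ioi).mpr (ae_of_all _ fun σ hσ => ?_)
  exact exp_id k s σ hσ

lemma kern1_integral {k s : ℝ} (hk : 0 < k + 1 - s) (hs : 0 < s) :
    ∫ σ in Ioi (0:ℝ), exp (-(k * σ)) * (exp σ - 1) ^ (s - 1) =
      Gamma (k + 1 - s) * Gamma s / Gamma (k + 1) := by
  have h := beta_integral hk hs
  rw [← exp_neg_image] at h
  rw [integral_image_eq_integral_abs_deriv_smul (f := fun σ : ℝ => exp (-σ))
    (f' := fun σ => -exp (-σ)) measurableSet_Ioi (fun σ _ => by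
      have := ((hasDerivAt_id σ).neg.exp)
      refine HasDerivAt.hasDerivWithinAt ?_
      simpa using this) (fun x _ y _ h => by
      have := exp_injective h
      linarith) (fun x : ℝ => x ^ (k + 1 - s - 1) * (1 - x) ^ (s - 1))] at h
  rw [sub_add_cancel] at h
  rw [← h]
  refine setIntegral_congr_fun measurableSet_Ioi fun σ hσ => ?_
  exact (exp_id k s σ hσ).symm

end Pool.Agent.V1175.MS
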