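import Mathlib
import Pool.Agent.V1175.MS.Kern
import Pool.Agent.V1175.MS.Lag

/-!
# The sequence `k^s / k!`, `1/2 ≤ s < 1`, is a multiplier sequence
-/

set_option autoImplicit false

namespace Pool.Agent.V1175.MS

open Set Filter Topology MeasureTheory Real

/-- The functional given by the Laplace transform of an antitone function. -/
theorem functional (a : ℝ) (ha : 0 ≤ a) (H : ℝ → ℝ) (hH : Antitone H) (M : ℝ)
    (h0 : ∀ t, 0 ≤ H t) (hM : ∀ t, H t ≤ M) (β : ℕ → ℝ) (c : ℝ) (hc : 0 < c)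
    (hβ : ∀ k : ℕ, ((k:ℝ) + a) * ∫ t in Ioi (0:ℝ), exp (-(((k:ℝ) + a) * t)) * H t = c * β k)
    (n : ℕ) (q : ℕ → ℝ)
    (hQ : ∀ T : ℝ, 0 ≤ T → exp (-(a * T)) * ∑ k ∈ Finset.range (n + 1), q k * exp (-T) ^ k ≤
      ∑ k ∈ Finset.range (n + 1), q k) :
    0 ≤ ∑ k ∈ Finset.range (n + 1), q k * β k := by
  have hmeas : Measurable H := hH.measurable
  have hka : ∀ k : ℕ, 0 ≤ (k:ℝ) + a := fun k => by positivity
  have hexp : ∀ k : ℕ, IntegrableOn (fun t : ℝ => ((k:ℝ) + a) * exp (-(((k:ℝ) + a) * t))) (Ioi 0) := by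
    intro k
    rcases (hka k).eq_or_lt with h | h
    · rw [← h]; simp
    · have := (exp_neg_integrableOn_Ioi 0 h).const_mul ((k:ℝ) + a)
      refine this.congr (ae_of_all _ fun t => ?_)
      simp only [neg_mul]
  have hexpH : ∀ k : ℕ, IntegrableOn
      (fun t : ℝ => H t * (((k:ℝ) + a) * exp (-(((k:ℝ) + a) * t)))) (Ioi 0) := by
    intro k
    refine (hexp k).bdd_mul (c := M) hmeas.aestronglyMeasurable (ae_of_all _ fun t => ?_)
    rw [Real.norm_of_nonneg (h0 t)]; exact hM t
  set D : ℝ → ℝ := fun t => ∑ k ∈ Finset.range (n + 1),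
    q k * (((k:ℝ) + a) * exp (-(((k:ℝ) + a) * t))) with hD
  have hDint : IntegrableOn D (Ioi 0) := by
    apply integrable_finsetSum
    intro k _
    exact (hexp k).const_mul _
  have hE : ∀ T : ℝ, 0 ≤ T → 0 ≤ ∫ t in (0:ℝ)..T, D t := by
    intro T hT
    have h1 : ∀ t ∈ uIcc 0 T, HasDerivAt (fun t => ∑ k ∈ Finset.range (n + 1),
        -(q k * exp (-(((k:ℝ) + a) * t)))) (D t) t := by
      intro t _
      simp only [hD]
      apply HasDerivAt.fun_sum
      intro k _
      have h2 : HasDerivAt (fun t : ℝ => -(((k:ℝ) + a) * t)) (-((k:ℝ) + a)) t := by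
        have := ((hasDerivAt_id t).const_mul ((k:ℝ) + a)).fun_neg
        simp only [id, mul_one] at this
        exact this
      have h3 := (h2.exp.const_mul (q k)).fun_neg
      refine h3.congr_deriv ?_
      ring
    have hcont : Continuous D := by
      simp only [hD]; fun_prop
    rw [intervalIntegral.integral_eq_sub_of_hasDerivAt h1 (hcont.intervalIntegrable _ _)]
    have h4 := hQ T hT
    have h5 : exp (-(a * T)) * ∑ k ∈ Finset.range (n + 1), q k * exp (-T) ^ k =
        ∑ k ∈ Finset.range (n + 1), q k * exp (-(((k:ℝ) + a) * T)) := by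
      rw [Finset.mul_sum]
      refine Finset.sum_congr rfl fun k _ => ?_
      rw [← exp_nat_mul]
      have : -(((k:ℝ) + a) * T) = -(a * T) + k * -T := by ring
      rw [this, exp_add]; ring
    rw [h5] at h4
    rw [Finset.sum_neg_distrib, Finset.sum_neg_distrib]
    simp only [mul_zero, neg_zero, exp_zero, mul_one]
    linarith
  have h6 := antitone_int H hH M h0 hM D hDint hE
  have h7 : ∫ t in Ioi (0:ℝ), H t * D t = c * ∑ k ∈ Finset.range (n + 1), q k * β k := by
    have e : ∀ t, H t * D t = ∑ k ∈ Finset.range (n + 1),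
        q k * (H t * (((k:ℝ) + a) * exp (-(((k:ℝ) + a) * t)))) := by
      intro t
      simp only [hD]
      rw [Finset.mul_sum]
      exact Finset.sum_congr rfl fun k _ => by ring
    simp only [e]
    rw [integral_finsetSum _ fun k _ => (hexpH k).const_mul _, Finset.mul_sum]
    refine Finset.sum_congr rfl fun k _ => ?_
    rw [integral_const_mul]
    have h8 : ∫ t in Ioi (0:ℝ), H t * (((k:ℝ) + a) * exp (-(((k:ℝ) + a) * t))) = c * β k := by
      rw [← hβ k, ← integral_const_mul]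
      exact integral_congr_ae (ae_of_all _ fun t => by ring)
    rw [h8]; ring
  rw [h7] at h6
  exact nonneg_of_mul_nonneg_right h6 hc

/-- The kernel on the half line. -/
noncomputable def Hs (s x : ℝ) : ℝ := ∫ t in (0:ℝ)..x, (exp t - 1) ^ (s - 1) * (x - t) ^ (-s)

lemma Hs_eq {s x : ℝ} (hx : 0 < x) :
    Hs s x = ∫ r in Ioo (0:ℝ) 1, ((exp (x * r) - 1) / x) ^ (s - 1) * (1 - r) ^ (-s) := by
  unfold Hs
  have h := intervalIntegral.integral_comp_mul_left (a := 0) (b := 1)
    (fun t => (exp t - 1) ^ (s - 1) * (x - t) ^ (-s)) hx.ne'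
  rw [mul_zero, mul_one] at h
  have h2 : ∫ t in (0:ℝ)..x, (exp t - 1) ^ (s - 1) * (x - t) ^ (-s) =
      x * ∫ r in (0:ℝ)..1, (exp (x * r) - 1) ^ (s - 1) * (x - x * r) ^ (-s) := by
    rw [h, smul_eq_mul, ← mul_assoc, mul_inv_cancel₀ hx.ne', one_mul]
  rw [h2, intervalIntegral.integral_of_le zero_le_one, integral_Ioc_eq_integral_Ioo,
    ← integral_const_mul]
  refine setIntegral_congr_fun measurableSet_Ioo fun r hr => ?_
  have h3 : 0 ≤ exp (x * r) - 1 := by
    have := Real.add_one_le_exp (x * r)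
    have := mul_pos hx hr.1
    linarith
  have h4 : x - x * r = x * (1 - r) := by ring
  have h5 : 0 ≤ 1 - r := by linarith [hr.2]
  rw [h4, mul_rpow hx.le h5, div_rpow h3 hx.le]
  have h6 : x ^ (s - 1) ≠ 0 := (rpow_pos_of_pos hx _).ne'
  have h7 : x * x ^ (-s) = 1 / x ^ (s - 1) := by
    rw [eq_div_iff h6, mul_assoc, ← rpow_add hx]
    have : -s + (s - 1) = -1 := by ring
    rw [this, rpow_neg_one, mul_inv_cancel₀ hx.ne']
  calc x * ((exp (x * r) - 1) ^ (s - 1) * (x ^ (-s) * (1 - r) ^ (-s))) =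
        (x * x ^ (-s)) * ((exp (x * r) - 1) ^ (s - 1) * (1 - r) ^ (-s)) := by ring
    _ = _ := by rw [h7]; ring

/-- monotonicity of the difference quotients of `exp` -/
lemma exp_quot_mono {x y r : ℝ} (hx : 0 < x) (hxy : x ≤ y) :
    (exp (x * r) - 1) / x ≤ (exp (y * r) - 1) / y := by
  have hy : 0 < y := hx.trans_le hxy
  have hc := convexOn_exp.2 (mem_univ (y * r)) (mem_univ (0:ℝ)) (show 0 ≤ x / y by positivity)
    (show 0 ≤ 1 - x / y by rw [sub_nonneg, div_le_one hy]; exact hxy) (by ring)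
  simp only [smul_eq_mul, mul_zero, add_zero, exp_zero, mul_one] at hc
  have h1 : x / y * (y * r) = x * r := by field_simp
  rw [h1] at hc
  rw [div_le_div_iff₀ hx hy]
  have h2 : exp (x * r) * y ≤ x * exp (y * r) + (y - x) := by
    have := mul_le_mul_of_nonneg_right hc hy.le
    have e : (x / y * exp (y * r) + (1 - x / y)) * y = x * exp (y * r) + (y - x) := by
      field_simp
    linarith
  linarith

lemma exp_quot_ge {x r : ℝ} (hx : 0 < x) : r ≤ (exp (x * r) - 1) / x := by
  rw [le_div_iff₀ hx]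
  have := Real.add_one_le_exp (x * r)
  linarith

lemma Hs_int {s x : ℝ} (hs : 0 < s) (hs1 : s < 1) (hx : 0 < x) :
    IntegrableOn (fun r : ℝ => ((exp (x * r) - 1) / x) ^ (s - 1) * (1 - r) ^ (-s)) (Ioo 0 1) := by
  have h := beta_integrable hs (b := 1 - s) (by linarith)
  refine Integrable.mono' h ?_ ?_
  · apply AEStronglyMeasurable.mul
    · apply Measurable.aestronglyMeasurable
      fun_prop
    · apply Measurable.aestronglyMeasurable
      fun_prop
  · refine (ae_restrict_iff' measurableSet_Ioo).mpr (ae_of_all _ fun r hr => ?_)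
    have h1 : 0 < r := hr.1
    have h2 : 0 < 1 - r := by linarith [hr.2]
    have h3 : r ≤ (exp (x * r) - 1) / x := exp_quot_ge hx
    have e : 1 - s - 1 = -s := by ring
    have h4 : 0 < (exp (x * r) - 1) / x := h1.trans_le h3
    rw [e, Real.norm_of_nonneg (by positivity)]
    apply mul_le_mul_of_nonneg_right _ (by positivity)
    exact rpow_le_rpow_of_nonpos h1 h3 (by linarith)

lemma Hs_nonneg {s x : ℝ} (hx : 0 < x) : 0 ≤ Hs s x := by
  rw [Hs_eq hx]
  apply setIntegral_nonneg measurableSet_Ioo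
  intro r hr
  have h1 : 0 < r := hr.1
  have h2 : 0 < 1 - r := by linarith [hr.2]
  have h3 : r ≤ (exp (x * r) - 1) / x := exp_quot_ge hx
  have h4 : 0 < (exp (x * r) - 1) / x := h1.trans_le h3
  positivity

lemma Hs_anti {s x y : ℝ} (hs : 0 < s) (hs1 : s < 1) (hx : 0 < x) (hxy : x ≤ y) :
    Hs s y ≤ Hs s x := by
  have hy : 0 < y := hx.trans_le hxy
  rw [Hs_eq hx, Hs_eq hy]
  apply setIntegral_mono_on (Hs_int hs hs1 hy) (Hs_int hs hs1 hx) measurableSet_Ioo
  intro r hr
  have h1 : 0 < r := hr.1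
  have h2 : 0 < 1 - r := by linarith [hr.2]
  have h3 : r ≤ (exp (x * r) - 1) / x := exp_quot_ge hx
  apply mul_le_mul_of_nonneg_right _ (by positivity)
  exact rpow_le_rpow_of_nonpos (h1.trans_le h3) (exp_quot_mono hx hxy) (by linarith)

lemma Hs_le {s x : ℝ} (hs : 0 < s) (hs1 : s < 1) (hx : 0 < x) :
    Hs s x ≤ Gamma s * Gamma (1 - s) := by
  have hb := beta_integral hs (b := 1 - s) (by linarith)
  rw [add_sub_cancel, Gamma_one, div_one] at hb
  rw [← hb, Hs_eq hx]
  apply setIntegral_mono_on (Hs_int hs hs1 hx) (beta_integrable hs (by linarith)) measurableSet_Ioo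
  intro r hr
  have h1 : 0 < r := hr.1
  have h2 : 0 < 1 - r := by linarith [hr.2]
  have h3 : r ≤ (exp (x * r) - 1) / x := exp_quot_ge hx
  have e : 1 - s - 1 = -s := by ring
  rw [e]
  apply mul_le_mul_of_nonneg_right _ (by positivity)
  exact rpow_le_rpow_of_nonpos h1 h3 (by linarith)

/-- The Laplace transform of the kernel. -/
lemma Hs_laplace {s : ℝ} (hs : 0 < s) (hs1 : s < 1) {k : ℝ} (hk : 0 < k) :
    ∫ x in Ioi (0:ℝ), exp (-(k * x)) * Hs s x =
      (Gamma (k + 1 - s) * Gamma s / Gamma (k + 1)) * (Gamma (1 - s) * k ^ (s - 1)) := by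
  have hf : IntegrableOn (fun σ : ℝ => exp (-(k * σ)) * (exp σ - 1) ^ (s - 1)) (Ioi 0) :=
    kern1_integrable (by linarith) hs
  have hg : IntegrableOn (fun τ : ℝ => τ ^ (-s) * exp (-(k * τ))) (Ioi 0) := by
    have := integrableOn_rpow_mul_exp_neg_mul_rpow (s := -s) (p := 1) (b := k)
      (by linarith) one_pos hk
    refine this.congr_fun (fun τ _ => ?_) measurableSet_Ioi
    simp
  have hc := integral_posConvolution hf hg (ContinuousLinearMap.mul ℝ ℝ)
  have h1 := kern1_integral (k := k) (s := s) (by linarith) hs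
  have h2 := Real.integral_rpow_mul_exp_neg_mul_Ioi (a := 1 - s) (r := k) (by linarith) hk
  have h3 : (1 - s - 1 : ℝ) = -s := by ring
  rw [h3] at h2
  rw [h1, h2] at hc
  simp only [ContinuousLinearMap.mul_apply'] at hc
  have h4 : (1 / k) ^ (1 - s) = k ^ (s - 1) := by
    rw [one_div, ← rpow_neg_one k, ← rpow_mul hk.le]
    congr 1; ring
  rw [h4, mul_comm (k ^ (s - 1))] at hc
  rw [← hc]
  refine setIntegral_congr_fun measurableSet_Ioi fun x _ => ?_
  simp only [Hs]
  rw [← intervalIntegral.integral_const_mul]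
  refine intervalIntegral.integral_congr fun t _ => ?_
  have : exp (-(k * x)) = exp (-(k * t)) * exp (-(k * (x - t))) := by
    rw [← exp_add]; congr 1; ring
  rw [this]; ring

end Pool.Agent.V1175.MS
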