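import Mathlib
import Pool.Agent.V1175.MS.Pow
import Pool.Agent.V1175.MS.Log

/-!
# The sequence `k^s / k!`, `1/2 ≤ s < 1`, is a multiplier sequence
-/

set_option autoImplicit false

namespace Pool.Agent.V1175.MS

open Polynomial Finset Filter Topology MeasureTheory

/-- the kernel, extended to an antitone function on the line -/
noncomputable def Ht (s t : ℝ) : ℝ :=
  if 0 < t then Hs s t else Real.Gamma s * Real.Gamma (1 - s)

lemma Ht_anti {s : ℝ} (hs : 0 < s) (hs1 : s < 1) : Antitone (Ht s) := by
  intro x y hxy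
  unfold Ht
  by_cases hx : 0 < x
  · rw [if_pos hx, if_pos (hx.trans_le hxy)]
    exact Hs_anti hs hs1 hx hxy
  · rw [if_neg hx]
    by_cases hy : 0 < y
    · rw [if_pos hy]; exact Hs_le hs hs1 hy
    · rw [if_neg hy]

lemma Ht_nonneg {s : ℝ} (hs : 0 < s) (hs1 : s < 1) (t : ℝ) : 0 ≤ Ht s t := by
  unfold Ht
  split_ifs with h
  · exact Hs_nonneg h
  · exact mul_nonneg (Real.Gamma_pos_of_pos hs).le (Real.Gamma_pos_of_pos (by linarith)).le

lemma Ht_le {s : ℝ} (hs : 0 < s) (hs1 : s < 1) (t : ℝ) :
    Ht s t ≤ Real.Gamma s * Real.Gamma (1 - s) := by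
  unfold Ht
  split_ifs with h
  · exact Hs_le hs hs1 h
  · exact le_rfl

lemma Ht_laplace {s : ℝ} (hs : 0 < s) (hs1 : s < 1) (k : ℕ) :
    ((k:ℝ) + 0) * ∫ t in Set.Ioi (0:ℝ), Real.exp (-(((k:ℝ) + 0) * t)) * Ht s t =
      (Real.Gamma s * Real.Gamma (1 - s)) *
        ((k:ℝ) ^ s * Real.Gamma (k + 1 - s) / Real.Gamma (k + 1)) := by
  rw [add_zero]
  cases k with
  | zero => simp [Real.zero_rpow hs.ne']
  | succ k =>
    have hk : (0:ℝ) < ((k + 1 : ℕ) : ℝ) := by positivity
    have h := Hs_laplace hs hs1 hk
    have h2 : ∫ t in Set.Ioi (0:ℝ), Real.exp (-(((k + 1 : ℕ) : ℝ) * t)) * Ht s t =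
        ∫ t in Set.Ioi (0:ℝ), Real.exp (-(((k + 1 : ℕ) : ℝ) * t)) * Hs s t := by
      refine setIntegral_congr_fun measurableSet_Ioi fun t ht => ?_
      have ht' : 0 < t := ht
      simp only [Ht, if_pos ht']
    rw [h2, h]
    set K : ℝ := ((k + 1 : ℕ) : ℝ)
    have h3 : K ^ s = K * K ^ (s - 1) := by
      rw [← Real.rpow_one_add' hk.le (by linarith)]
      congr 1; ring
    rw [h3]; ring

/-- The test points of a polynomial of Laguerre: the origin and the critical points. -/
theorem pow_mult {s : ℝ} (hs : 1 / 2 ≤ s) (hs1 : s < 1) :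
    Mult (fun k => (k:ℝ) ^ s / (k.factorial : ℝ)) := by
  have hs0 : 0 < s := by linarith
  have hα : (-1 : ℝ) < -s := by linarith
  refine mult_crit (lag (-s)) _ (lag_pos hα) (fun k => by positivity) ?_
  intro n
  obtain ⟨z, hz0, hzm, hz⟩ := lag_roots hα n
  set u := jp n (lag (-s)) with hu
  have hroot : ∀ i < n, u.eval (z i) = 0 := by
    intro i hi
    rw [hz, eval_mul, eval_prod, Finset.prod_eq_zero (mem_range.mpr hi) (by simp), mul_zero]
  have hode := lag_ode hα n
  rw [← hu] at hode
  have hode2 : X ^ 2 * derivative (derivative u) + X * (C (-s + 1) - X) * derivative u +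
      (C 0 + C (n : ℝ) * X) * u = 0 := by
    rw [C_0]
    linear_combination (X : ℝ[X]) * hode
  have hex : ∀ i, i + 1 < n → ∃ t, z i < t ∧ t < z (i + 1) ∧ (derivative u).eval t = 0 := by
    intro i hi
    exact rolle u (z i) (z (i + 1)) (hzm i (i + 1) (Nat.lt_succ_self i) hi)
      (hroot i (by omega)) (hroot (i + 1) hi)
  choose! c hc1 hc2 hc3 using hex
  set t : ℕ → ℝ := fun i => if i = 0 then 0 else c (i - 1) with ht
  have ht0 : t 0 = 0 := by simp [ht]
  have hts : ∀ i, t (i + 1) = c i := by intro i; simp [ht]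
  have hcpos : ∀ i, i + 1 < n → 0 < c i := fun i hi => (hz0 i (by omega)).trans (hc1 i hi)
  have hsgn : ∀ i < n, 0 < (-1 : ℝ) ^ i * u.eval (t i) := by
    intro i hi
    cases i with
    | zero =>
      rw [ht0, pow_zero, one_mul, ← coeff_zero_eq_eval_zero, hu, coeff_jp]
      simpa using lag_pos hα 0
    | succ i =>
      rw [hts]
      apply lag_sign hα n z hz (c i) (i + 1) hi.le
      · intro j hj
        have h1 : z j ≤ z i := by
          rcases Nat.lt_or_ge j i with h | h
          · exact (hzm j i h (by omega)).le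
          · have : j = i := by omega
            rw [this]
        exact lt_of_le_of_lt h1 (hc1 i hi)
      · intro j hij hj
        have h1 : z (i + 1) ≤ z j := by
          rcases hij.eq_or_lt with h | h
          · rw [h]
          · exact (hzm (i + 1) j h hj).le
        exact lt_of_lt_of_le (hc2 i hi) h1
  refine ⟨t, ?_, ?_, hsgn, ?_⟩
  · intro i j hij hj
    cases j with
    | zero => omega
    | succ j =>
      rw [hts]
      cases i with
      | zero => rw [ht0]; exact hcpos j hj
      | succ i =>
        rw [hts]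
        have h1 := hc2 i (by omega)
        have h2 := hc1 j hj
        have h3 : z (i + 1) ≤ z j := by
          rcases Nat.lt_or_ge (i + 1) j with h | h
          · exact (hzm (i + 1) j h (by omega)).le
          · have : i + 1 = j := by omega
            rw [this]
        linarith
  · intro i hi
    cases i with
    | zero => rw [ht0]
    | succ i => rw [hts]; exact (hcpos i hi).le
  · intro i hi
    cases i with
    | zero =>
      rw [ht0, pow_zero, one_mul, ← coeff_zero_eq_eval_zero, coeff_jp]
      simp [Real.zero_rpow hs0.ne']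
    | succ i =>
      have hti : 0 < t (i + 1) := by rw [hts]; exact hcpos i hi
      have hn0 : (0:ℝ) < n := by
        have : 0 < n := by omega
        exact_mod_cast this
      set y := t (i + 1) with hy
      set e : ℝ := (-1 : ℝ) ^ (i + 1) with he
      set q : ℕ → ℝ := fun k => e * (u.coeff k * y ^ k) with hq
      have hQ : ∀ s : ℝ, ∑ k ∈ range (n + 1), q k * s ^ k = e * u.eval (y * s) := by
        intro s
        rw [eval_scale u n (natDegree_jp _ _), Finset.mul_sum]
        refine Finset.sum_congr rfl fun k _ => ?_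
        simp only [hq]; ring
      have hQ1 : ∑ k ∈ range (n + 1), q k = e * u.eval y := by
        have := hQ 1
        simpa using this
      have e1 : e ^ 2 = 1 := by rw [he, ← pow_mul, mul_comm, pow_mul]; simp
      have hfun := functional 0 le_rfl (Ht s) (Ht_anti hs0 hs1) _ (Ht_nonneg hs0 hs1)
        (Ht_le hs0 hs1) _ _ (mul_pos (Real.Gamma_pos_of_pos hs0)
          (Real.Gamma_pos_of_pos (by linarith))) (Ht_laplace hs0 hs1) n q (by
          intro T hT
          rw [zero_mul, neg_zero, Real.exp_zero, one_mul, hQ, hQ1]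
          have hx1 : Real.exp (-T) ≤ 1 := by rw [Real.exp_le_one_iff]; linarith
          have hx0 := Real.exp_pos (-T)
          have h1 := sonin u (-s + 1) 0 (n : ℝ) le_rfl hn0.le (by linarith)
            (by linarith) hode2 y hti (by rw [hy, hts]; exact hc3 i hi) (y * Real.exp (-T))
            (by positivity) (by nlinarith)
          have h4 : (e * u.eval (y * Real.exp (-T))) ^ 2 ≤ (e * u.eval y) ^ 2 := by
            rw [mul_pow, mul_pow, e1, one_mul, one_mul]
            exact h1
          exact abs_le_of_sq_le_sq' h4 (hsgn (i + 1) hi).le |>.2)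
      have hE : e * (jp n fun k => (k:ℝ) ^ s / (k.factorial : ℝ)).eval y =
          ∑ k ∈ range (n + 1), q k *
            ((k:ℝ) ^ s * Real.Gamma (k + 1 - s) / Real.Gamma (k + 1)) := by
        rw [eval_eq_sum_range' (lt_of_le_of_lt (natDegree_jp _ _) (Nat.lt_succ_self n)),
          Finset.mul_sum]
        refine Finset.sum_congr rfl fun k _ => ?_
        simp only [hq]
        rw [coeff_jp, hu, coeff_jp, lag]
        have h5 : (k:ℝ) + -s + 1 = k + 1 - s := by ring
        have h6 : (0:ℝ) < k + 1 - s := by
          have : (0:ℝ) ≤ k := Nat.cast_nonneg k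
          linarith
        have h7 := (Real.Gamma_pos_of_pos h6).ne'
        rw [h5, Real.Gamma_nat_eq_factorial]
        field_simp
      rw [hE]
      exact hfun

end Pool.Agent.V1175.MS
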