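import Mathlib
import Pool.Agent.V1175.MS.PowMult

/-!
# Operations on multiplier sequences
-/

set_option autoImplicit false

namespace Pool.Agent.V1175.MS

open Polynomial Finset Filter Topology MeasureTheory

lemma coeff_Tn (n : ℕ) (γ : ℕ → ℝ) (p : ℝ[X]) (k : ℕ) :
    (Tn n γ p).coeff k = if k ≤ n then γ k * p.coeff k else 0 := by
  unfold Tn
  rw [finsetSum_coeff]
  simp only [coeff_C_mul_X_pow]
  by_cases hk : k ≤ n
  · rw [Finset.sum_eq_single k, if_pos hk]
    · simp
    · intro j _ hj
      rw [if_neg (Ne.symm hj)]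
    · intro h; exact absurd (mem_range.mpr (by omega)) h
  · rw [if_neg hk]
    apply Finset.sum_eq_zero
    intro j hj
    rw [if_neg]
    rintro rfl
    exact hk (by have := mem_range.mp hj; omega)

lemma natDegree_Tn (n : ℕ) (γ : ℕ → ℝ) (p : ℝ[X]) : (Tn n γ p).natDegree ≤ n := by
  rw [natDegree_le_iff_coeff_eq_zero]
  intro k hk
  rw [coeff_Tn, if_neg (by omega)]

lemma Mult.mul {γ δ : ℕ → ℝ} (h1 : Mult γ) (h2 : Mult δ) : Mult (fun k => γ k * δ k) := by
  intro n p hp hdeg
  have h := h1 n _ (h2 n p hp hdeg) (natDegree_Tn n δ p)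
  have e : Tn n γ (Tn n δ p) = Tn n (fun k => γ k * δ k) p := by
    ext k
    rw [coeff_Tn, coeff_Tn, coeff_Tn]
    split_ifs
    · ring
    · rfl
  rwa [e] at h

lemma Tn_of_natDegree {n : ℕ} {γ : ℕ → ℝ} {p : ℝ[X]} (h : p.natDegree ≤ n) :
    Tn n γ p = Tn p.natDegree γ p := by
  ext k
  rw [coeff_Tn, coeff_Tn]
  by_cases hk : k ≤ p.natDegree
  · rw [if_pos hk, if_pos (hk.trans h)]
  · rw [if_neg hk, coeff_eq_zero_of_natDegree_lt (not_le.mp hk), mul_zero, ite_self]

lemma Mult.one : Mult (fun _ => 1) := by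
  intro n p hp hdeg
  have e : Tn n (fun _ => (1:ℝ)) p = p := by
    ext k
    rw [coeff_Tn]
    by_cases hk : k ≤ n
    · rw [if_pos hk, one_mul]
    · rw [if_neg hk, coeff_eq_zero_of_natDegree_lt (lt_of_le_of_lt hdeg (not_le.mp hk))]
  rw [e]; exact hp

lemma Mult.pow {γ : ℕ → ℝ} (h1 : Mult γ) (N : ℕ) : Mult (fun k => γ k ^ N) := by
  induction N with
  | zero => simpa using Mult.one
  | succ N ih =>
    have := ih.mul h1
    refine (congrArg Mult ?_).mp this
    funext k
    rw [pow_succ]

lemma Mult.const_mul {γ : ℕ → ℝ} (h1 : Mult γ) (a : ℝ) : Mult (fun k => a * γ k) := by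
  intro n p hp hdeg
  have e : Tn n (fun k => a * γ k) p = C a * Tn n γ p := by
    ext k
    rw [coeff_C_mul, coeff_Tn, coeff_Tn]
    split_ifs
    · ring
    · simp
  rw [e]
  by_cases ha : a = 0
  · left; rw [ha, C_0, zero_mul]
  rcases h1 n p hp hdeg with h | h
  · left; rw [h, mul_zero]
  · right
    intro z hz
    apply h z
    rw [map_mul, aeval_C] at hz
    rcases mul_eq_zero.mp hz with h2 | h2
    · exact absurd h2 (by simpa using ha)
    · exact h2

/-- The endpoint: `k^s/k!` for `1/2 ≤ s ≤ 1`. -/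
theorem pow_mult' {s : ℝ} (hs : 1 / 2 ≤ s) (hs1 : s ≤ 1) :
    Mult (fun k => (k:ℝ) ^ s / (k.factorial : ℝ)) := by
  rcases hs1.lt_or_eq with h | h
  · exact pow_mult hs h
  · subst h
    refine mult_of_tendsto (g := fun ε k => (k:ℝ) ^ (1 - min ε (1 / 2)) / (k.factorial : ℝ)) ?_ ?_
    · intro ε hε
      apply pow_mult
      · have := min_le_right ε (1 / 2 : ℝ)
        linarith
      · have : 0 < min ε (1 / 2 : ℝ) := lt_min hε (by norm_num)
        linarith
    · intro k
      apply Tendsto.div_const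
      have h1 : Tendsto (fun ε : ℝ => 1 - min ε (1 / 2)) (𝓝 0) (𝓝 (1 - min 0 (1 / 2))) :=
        (continuous_const.sub (continuous_id.min continuous_const)).tendsto 0
      rw [min_eq_left (by norm_num : (0:ℝ) ≤ 1 / 2), sub_zero] at h1
      have h2 := h1.mono_left (nhdsWithin_le_nhds (s := Set.Ioi (0:ℝ)))
      exact (Real.continuousAt_const_rpow' (a := (k:ℝ)) one_ne_zero).tendsto.comp h2

/-- Factorization over the reals. -/
theorem RR.exists_prod {f : ℝ[X]} (hf : RR f) (hf0 : f ≠ 0) :
    ∃ s : Multiset ℝ, f = C f.leadingCoeff * (s.map (fun r : ℝ => X - C r)).prod := by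
  obtain ⟨s, hs⟩ := hf.exists_roots hf0
  refine ⟨s, ?_⟩
  apply Polynomial.map_injective (algebraMap ℝ ℂ) (algebraMap ℝ ℂ).injective
  apply Polynomial.funext
  intro z
  rw [eval_map_algebraMap, hs z, Polynomial.map_mul, eval_mul, map_C, eval_C]
  congr 1
  rw [Polynomial.map_multiset_prod, Multiset.map_map, eval_multiset_prod, Multiset.map_map]
  congr 1
  apply Multiset.map_congr rfl
  intro w _
  simp

/-- A sequence whose Jensen polynomials have only real nonpositive zeros. -/
theorem Tn_RR_of_jensen (n : ℕ) (γ : ℕ → ℝ) (hγ : ∀ k, 0 ≤ γ k) (hn : 0 < γ n)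
    (h : RR (Tn n γ ((1 + X) ^ n))) (p : ℝ[X]) (hp : RR p) (hdeg : p.natDegree ≤ n) :
    RR (Tn n γ p) := by
  set f := Tn n γ ((1 + X) ^ n) with hf
  have hcoef : ∀ k ≤ n, f.coeff k = (n.choose k : ℝ) * γ k := by
    intro k hk
    rw [hf, coeff_Tn, if_pos hk, coeff_one_add_X_pow, mul_comm]
  have hfn : f.coeff n = γ n := by rw [hcoef n le_rfl, Nat.choose_self]; simp
  have hf0 : f ≠ 0 := by
    intro h0
    rw [h0, coeff_zero] at hfn
    exact hn.ne hfn
  have hnd : f.natDegree = n :=
    le_antisymm (natDegree_Tn _ _ _) (le_natDegree_of_ne_zero (by rw [hfn]; exact hn.ne'))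
  obtain ⟨s, hs⟩ := h.exists_prod hf0
  have hlead : 0 < f.leadingCoeff := by rw [leadingCoeff, hnd, hfn]; exact hn
  have hcard : Multiset.card s = n := by
    rw [← hnd, hs, natDegree_C_mul hlead.ne', natDegree_multiset_prod_X_sub_C_eq_card]
  refine comp_nonneg n γ f.leadingCoeff (s.map fun r => -r).toList (by simp [hcard]) ?_ ?_
    p hp hdeg
  · intro α hα
    rw [Multiset.mem_toList, Multiset.mem_map] at hα
    obtain ⟨r, hr, rfl⟩ := hα
    by_contra hneg
    push Not at hneg
    have hr0 : 0 < r := by linarith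
    have hroot : f.eval r = 0 := by
      rw [hs, eval_mul, eval_multiset_prod, Multiset.map_map]
      rw [Multiset.prod_eq_zero (Multiset.mem_map.mpr ⟨r, hr, by simp⟩), mul_zero]
    have hpos : 0 < f.eval r := by
      rw [eval_eq_sum_range' (lt_of_le_of_lt (natDegree_Tn _ _ _) (Nat.lt_succ_self n))]
      apply Finset.sum_pos'
      · intro k hk
        have hk' : k ≤ n := by have := mem_range.mp hk; omega
        rw [hcoef k hk']
        have := hγ k
        positivity
      · refine ⟨n, mem_range.mpr (Nat.lt_succ_self n), ?_⟩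
        rw [hfn]; positivity
    linarith
  · intro k hk
    rw [← hcoef k hk]
    conv_lhs => rw [hs]
    rw [coeff_C_mul]
    congr 2
    rw [← Multiset.prod_coe, ← Multiset.map_coe, Multiset.coe_toList, Multiset.map_map]
    congr 1
    apply Multiset.map_congr rfl
    intro r _
    simp [sub_eq_add_neg]

/-- Shift of a multiplier sequence vanishing at the origin. -/
theorem Mult.shift {γ : ℕ → ℝ} (h : Mult γ) (h0 : γ 0 = 0) (hpos : ∀ k, 0 < γ (k + 1)) :
    Mult (fun k => γ (k + 1) / ((k:ℝ) + 1)) := by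
  intro n p hp hdeg
  refine Tn_RR_of_jensen n _ (fun k => (div_pos (hpos k) (by positivity)).le)
    (div_pos (hpos n) (by positivity)) ?_ p hp hdeg
  -- the Jensen polynomials
  set f := Tn n (fun k => γ (k + 1) / ((k:ℝ) + 1)) ((1 + X) ^ n) with hf
  have hbase : RR ((1 + X : ℝ[X]) ^ (n + 1)) := by
    right
    intro z hz
    rw [map_pow] at hz
    have h1 := pow_eq_zero_iff (n := n + 1) (by omega) |>.mp hz
    simp only [map_add, map_one, aeval_X] at h1
    have h2 := congrArg Complex.im h1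
    simpa using h2
  have hdeg1 : ((1 + X : ℝ[X]) ^ (n + 1)).natDegree ≤ n + 1 := by
    refine (natDegree_pow_le).trans ?_
    have : (1 + X : ℝ[X]).natDegree ≤ 1 := by
      rw [show (1 : ℝ[X]) + X = X + C 1 by rw [map_one]; ring, natDegree_X_add_C]
    calc (n + 1) * (1 + X : ℝ[X]).natDegree ≤ (n + 1) * 1 := Nat.mul_le_mul_left _ this
      _ = n + 1 := by ring
  have hg := h (n + 1) _ hbase hdeg1
  have key : Tn (n + 1) γ ((1 + X) ^ (n + 1)) = C ((n:ℝ) + 1) * (X * f) := by
    ext k
    rw [coeff_C_mul, coeff_Tn]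
    cases k with
    | zero => simp [h0]
    | succ k =>
      rw [coeff_X_mul, hf, coeff_Tn]
      by_cases hk : k ≤ n
      · rw [if_pos hk, if_pos (by omega), coeff_one_add_X_pow, coeff_one_add_X_pow]
        have h2 := Nat.add_one_mul_choose_eq n k
        have h3 : ((n:ℝ) + 1) * (n.choose k : ℝ) = ((n + 1).choose (k + 1) : ℝ) * ((k:ℝ) + 1) := by
          exact_mod_cast h2
        have h4 : ((k:ℝ) + 1) ≠ 0 := by positivity
        field_simp
        linear_combination -γ (k + 1) * h3
      · rw [if_neg hk, if_neg (by omega), mul_zero]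
  rw [key] at hg
  rcases hg with hg | hg
  · left
    rcases mul_eq_zero.mp hg with h1 | h1
    · rw [C_eq_zero] at h1
      exact absurd h1 (by positivity)
    · rcases mul_eq_zero.mp h1 with h2 | h2
      · exact absurd h2 X_ne_zero
      · exact h2
  · right
    intro z hz
    apply hg z
    rw [map_mul, map_mul, hz, mul_zero, mul_zero]

end Pool.Agent.V1175.MS
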