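import Mathlib
import Pool.Agent.V1175.MS.Log

/-!
# A criterion for multiplier sequences of the form `β_k / Γ(k+α+1)`, `-1 < α ≤ 1`
-/

set_option autoImplicit false

namespace Pool.Agent.V1175.MS

open Polynomial Finset Filter Topology MeasureTheory

/-- The sequences `1/Γ(k+α+1)` are multiplier sequences. -/
theorem lag_mult {α : ℝ} (hα : -1 < α) : Mult (lag α) := by
  intro n p hp hdeg
  obtain ⟨z, hz0, -, hz⟩ := lag_roots hα n
  exact Tn_RR_of_prod n (lag α) _ z (fun i hi => (hz0 i hi).le) hz p hp hdeg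

/-- Let `u_n` be the Laguerre polynomials with parameter `α ∈ (-1, 1]`. If a functional is
nonnegative at every `q` with `s Q(s) ≤ Q(1)` on `[0,1]` then its values on the powers, divided
by `Γ(k+α+1)`, form a multiplier sequence. -/
theorem mult_of_fun1 {α : ℝ} (hα : -1 < α) (hα1 : α ≤ 1) (β : ℕ → ℝ) (hβ0 : ∀ k, 0 ≤ β k)
    (hfun : ∀ (n : ℕ) (q : ℕ → ℝ), (∀ s : ℝ, 0 ≤ s → s ≤ 1 →
      s * ∑ k ∈ range (n + 1), q k * s ^ k ≤ ∑ k ∈ range (n + 1), q k) →
      0 ≤ ∑ k ∈ range (n + 1), q k * β k) : Mult (fun k => β k * lag α k) := by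
  refine mult_crit (lag α) _ (lag_pos hα)
    (fun k => mul_nonneg (hβ0 k) (lag_pos hα k).le) ?_
  intro n
  obtain ⟨z, hz0, hzm, hz⟩ := lag_roots hα n
  set u := jp n (lag α) with hu
  set v : ℝ[X] := X * u with hv
  have hroot : ∀ i < n, u.eval (z i) = 0 := by
    intro i hi
    rw [hz, eval_mul, eval_prod, Finset.prod_eq_zero (mem_range.mpr hi) (by simp), mul_zero]
  have hode := lag_ode hα n
  rw [← hu] at hode
  have hodev : X ^ 2 * derivative (derivative v) + X * (C (α - 1) - X) * derivative v +
      (C (1 - α) + C ((n : ℝ) + 1) * X) * v = 0 := by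
    rw [hv]
    simp only [derivative_mul, derivative_X, derivative_add, one_mul, C_add, C_sub, map_one,
      map_one] at hode ⊢
    linear_combination (X ^ 2 : ℝ[X]) * hode
  -- the critical points
  set a : ℕ → ℝ := fun i => if i = 0 then 0 else z (i - 1) with ha
  have ha0 : a 0 = 0 := by simp [ha]
  have has : ∀ i, a (i + 1) = z i := by intro i; simp [ha]
  have hva : ∀ i < n, v.eval (a i) = 0 := by
    intro i hi
    rw [hv, eval_mul, eval_X]
    cases i with
    | zero => rw [ha0, zero_mul]
    | succ i => rw [has, hroot i (by omega), mul_zero]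
  have haz : ∀ i < n, a i < z i := by
    intro i hi
    cases i with
    | zero => rw [ha0]; exact hz0 0 hi
    | succ i => rw [has]; exact hzm i (i + 1) (Nat.lt_succ_self i) hi
  have ha0' : ∀ i < n, 0 ≤ a i := by
    intro i hi
    cases i with
    | zero => rw [ha0]
    | succ i => rw [has]; exact (hz0 i (by omega)).le
  have hex : ∀ i < n, ∃ t, a i < t ∧ t < z i ∧ (derivative v).eval t = 0 := by
    intro i hi
    apply rolle v (a i) (z i) (haz i hi) (hva i hi)
    rw [hv, eval_mul, hroot i hi, mul_zero]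
  choose! t ht1 ht2 ht3 using hex
  have hsgn : ∀ i < n, 0 < (-1 : ℝ) ^ i * u.eval (t i) := by
    intro i hi
    apply lag_sign hα n z hz (t i) i hi.le
    · intro j hj
      have h1 : z j ≤ a i := by
        cases i with
        | zero => omega
        | succ i =>
          rw [has]
          rcases Nat.lt_or_ge j i with h | h
          · exact (hzm j i h (by omega)).le
          · have : j = i := by omega
            rw [this]
      exact lt_of_le_of_lt h1 (ht1 i hi)
    · intro j hij hj
      have h1 : z i ≤ z j := by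
        rcases hij.eq_or_lt with h | h
        · rw [h]
        · exact (hzm i j h hj).le
      exact lt_of_lt_of_le (ht2 i hi) h1
  refine ⟨t, ?_, ?_, hsgn, ?_⟩
  · intro i j hij hj
    have h1 := ht2 i (by omega)
    have h2 := ht1 j hj
    have h3 : z i ≤ a j := by
      cases j with
      | zero => omega
      | succ j =>
        rw [has]
        rcases Nat.lt_or_ge i j with h | h
        · exact (hzm i j h (by omega)).le
        · have : i = j := by omega
          rw [this]
    linarith
  · intro i hi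
    exact (ha0' i hi).trans (ht1 i hi).le
  · intro i hi
    have hti : 0 < t i := lt_of_le_of_lt (ha0' i hi) (ht1 i hi)
    set q : ℕ → ℝ := fun k => (-1 : ℝ) ^ i * (u.coeff k * t i ^ k) with hq
    have hQ : ∀ s : ℝ, ∑ k ∈ range (n + 1), q k * s ^ k = (-1 : ℝ) ^ i * u.eval (t i * s) := by
      intro s
      rw [eval_scale u n (natDegree_jp _ _), Finset.mul_sum]
      refine Finset.sum_congr rfl fun k _ => ?_
      simp only [hq]; ring
    have hQ1 : ∑ k ∈ range (n + 1), q k = (-1 : ℝ) ^ i * u.eval (t i) := by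
      have := hQ 1
      simpa using this
    have hf := hfun n q (by
      intro s hs0 hs1
      rw [hQ, hQ1]
      have hn1 : (0:ℝ) < (n:ℝ) + 1 := by positivity
      have h1 := sonin v (α - 1) (1 - α) ((n : ℝ) + 1) (by linarith) hn1.le (by linarith)
        (by linarith) hodev (t i) hti (ht3 i hi) (t i * s) (by positivity)
        (by nlinarith)
      rw [hv, eval_mul, eval_mul, eval_X, eval_X, mul_pow (t i * s), mul_pow (t i) (eval (t i) u)] at h1
      have h2 : (s * u.eval (t i * s)) ^ 2 ≤ (u.eval (t i)) ^ 2 := by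
        have h3 : t i ^ 2 * (s * u.eval (t i * s)) ^ 2 ≤ t i ^ 2 * (u.eval (t i)) ^ 2 := by
          calc t i ^ 2 * (s * u.eval (t i * s)) ^ 2 = (t i * s) ^ 2 * u.eval (t i * s) ^ 2 := by
                ring
            _ ≤ _ := h1
        exact le_of_mul_le_mul_left h3 (by positivity)
      have h4 : (s * ((-1 : ℝ) ^ i * u.eval (t i * s))) ^ 2 ≤
          ((-1 : ℝ) ^ i * u.eval (t i)) ^ 2 := by
        have e1 : ((-1 : ℝ) ^ i) ^ 2 = 1 := by rw [← pow_mul, mul_comm, pow_mul]; simp
        calc (s * ((-1 : ℝ) ^ i * u.eval (t i * s))) ^ 2 =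
              ((-1 : ℝ) ^ i) ^ 2 * (s * u.eval (t i * s)) ^ 2 := by ring
          _ = (s * u.eval (t i * s)) ^ 2 := by rw [e1, one_mul]
          _ ≤ (u.eval (t i)) ^ 2 := h2
          _ = ((-1 : ℝ) ^ i) ^ 2 * (u.eval (t i)) ^ 2 := by rw [e1, one_mul]
          _ = _ := by ring
      exact abs_le_of_sq_le_sq' h4 (hsgn i hi).le |>.2)
    have hE : (-1 : ℝ) ^ i * (jp n fun k => β k * lag α k).eval (t i) =
        ∑ k ∈ range (n + 1), q k * β k := by
      rw [eval_eq_sum_range' (lt_of_le_of_lt (natDegree_jp _ _) (Nat.lt_succ_self n)),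
        Finset.mul_sum]
      refine Finset.sum_congr rfl fun k _ => ?_
      simp only [hq]
      rw [coeff_jp, hu, coeff_jp]
      ring
    rw [hE]
    exact hf

end Pool.Agent.V1175.MS
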