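import Mathlib
import Pool.Agent.V1175.MS.Ops
import Pool.Agent.V1175.MS.Fun1

/-!
# The sequence `1/(k+1)^(k+1)` is a multiplier sequence
-/

set_option autoImplicit false

namespace Pool.Agent.V1175.MS

open Set Filter Topology MeasureTheory Real

/-- `r(s) = s e^{1-s}` -/
noncomputable def rr (s : ℝ) : ℝ := s * exp (1 - s)

lemma rr_nonneg {s : ℝ} (hs : 0 ≤ s) : 0 ≤ rr s := mul_nonneg hs (exp_pos _).le

lemma rr_le_one (s : ℝ) : rr s ≤ 1 := by
  unfold rr
  have h := Real.add_one_le_exp (s - 1)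
  rw [sub_add_cancel] at h
  have h2 : exp (s - 1) * exp (1 - s) = 1 := by rw [← exp_add]; simp
  calc s * exp (1 - s) ≤ exp (s - 1) * exp (1 - s) :=
        mul_le_mul_of_nonneg_right h (exp_pos _).le
    _ = 1 := h2

lemma one_sub_rr_le {s : ℝ} (hs : 0 ≤ s) : 1 - rr s ≤ (1 - s) ^ 2 := by
  unfold rr
  have h := Real.add_one_le_exp (1 - s)
  have := mul_le_mul_of_nonneg_left h hs
  nlinarith

lemma one_sub_pow_le {s : ℝ} (hs : 0 ≤ s) (k : ℕ) :
    1 - rr s ^ (k + 1) ≤ ((k:ℝ) + 1) * (1 - s) ^ 2 := by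
  have h1 : 1 + ((k + 1 : ℕ) : ℝ) * (rr s - 1) ≤ (1 + (rr s - 1)) ^ (k + 1) :=
    one_add_mul_le_pow (by have := rr_nonneg hs; linarith) (k + 1)
  rw [add_sub_cancel] at h1
  have h2 := one_sub_rr_le hs
  have h3 : (0:ℝ) ≤ (k:ℝ) + 1 := by positivity
  have h4 := mul_le_mul_of_nonneg_left h2 h3
  push_cast at h1
  linarith

lemma one_sub_pow_nonneg {s : ℝ} (hs : 0 ≤ s) (k : ℕ) : 0 ≤ 1 - rr s ^ (k + 1) :=
  sub_nonneg.mpr (pow_le_one₀ (rr_nonneg hs) (rr_le_one s))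

/-- the primitive -/
noncomputable def WW (k : ℕ) (s : ℝ) : ℝ := s / (1 - s) * (rr s ^ (k + 1) - 1)

noncomputable def gg (k : ℕ) (s : ℝ) : ℝ := (1 - rr s ^ (k + 1)) / (1 - s) ^ 2

lemma WW_deriv (k : ℕ) {s : ℝ} (hs : s ≠ 1) :
    HasDerivAt (WW k) (((k:ℝ) + 1) * rr s ^ (k + 1) - gg k s) s := by
  have h1s : 1 - s ≠ 0 := sub_ne_zero.mpr (Ne.symm hs)
  have h1 : HasDerivAt (fun s : ℝ => 1 - s) (-1) s := by
    simpa using (hasDerivAt_id s).const_sub 1
  have h2 : HasDerivAt rr (1 * exp (1 - s) + s * (exp (1 - s) * -1)) s :=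
    (hasDerivAt_id s).fun_mul h1.exp
  have h3 := (h2.fun_pow (k + 1)).sub_const 1
  have h4 := ((hasDerivAt_id s).fun_div h1 h1s).fun_mul h3
  refine h4.congr_deriv ?_
  simp only [id, gg, Nat.add_sub_cancel]
  rw [pow_succ]
  have : rr s = s * exp (1 - s) := rfl
  rw [this]
  push_cast
  field_simp
  ring

lemma WW_bound (k : ℕ) {s : ℝ} (hs : 0 ≤ s) : |WW k s| ≤ ((k:ℝ) + 1) * s * |1 - s| := by
  unfold WW
  by_cases h1 : 1 - s = 0
  · rw [h1]; simp
  rw [abs_mul, abs_div, abs_of_nonneg hs, abs_sub_comm (rr s ^ (k + 1)) 1,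
    abs_of_nonneg (one_sub_pow_nonneg hs k)]
  have h2 := one_sub_pow_le hs k
  have h3 : 0 < |1 - s| := abs_pos.mpr h1
  calc s / |1 - s| * (1 - rr s ^ (k + 1)) ≤ s / |1 - s| * (((k:ℝ) + 1) * (1 - s) ^ 2) :=
        mul_le_mul_of_nonneg_left h2 (by positivity)
    _ = ((k:ℝ) + 1) * s * |1 - s| := by
        rw [← sq_abs (1 - s)]
        field_simp

lemma WW_one (k : ℕ) : WW k 1 = 0 := by simp [WW]

lemma WW_tendsto_one (k : ℕ) : Tendsto (WW k) (𝓝 1) (𝓝 0) := by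
  have h1 : Tendsto (fun s : ℝ => ((k:ℝ) + 1) * s * |1 - s|) (𝓝 1) (𝓝 0) := by
    have : Continuous fun s : ℝ => ((k:ℝ) + 1) * s * |1 - s| := by fun_prop
    have h := this.tendsto 1
    simpa using h
  refine squeeze_zero_norm' ?_ h1
  filter_upwards [lt_mem_nhds (show (0:ℝ) < 1 by norm_num)] with s hs
  exact WW_bound k hs.le

lemma WW_tendsto_zero (k : ℕ) : Tendsto (WW k) (𝓝[>] 0) (𝓝 0) := by
  have h1 : Tendsto (fun s : ℝ => ((k:ℝ) + 1) * s * |1 - s|) (𝓝[>] 0) (𝓝 0) := by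
    have : Continuous fun s : ℝ => ((k:ℝ) + 1) * s * |1 - s| := by fun_prop
    have h := this.tendsto 0
    simp only [mul_zero, zero_mul] at h
    exact h.mono_left nhdsWithin_le_nhds
  refine squeeze_zero_norm' ?_ h1
  filter_upwards [self_mem_nhdsWithin] with s hs
  exact WW_bound k (le_of_lt hs)

lemma rr_tendsto : Tendsto rr atTop (𝓝 0) := by
  have h := (Real.tendsto_pow_mul_exp_neg_atTop_nhds_zero 1).const_mul (exp 1)
  rw [mul_zero] at h
  refine h.congr fun s => ?_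
  unfold rr
  rw [pow_one, show (1 - s) = 1 + -s by ring, exp_add]; ring

lemma WW_tendsto_top (k : ℕ) : Tendsto (WW k) atTop (𝓝 1) := by
  have h1 : Tendsto (fun s : ℝ => s / (1 - s)) atTop (𝓝 (-1)) := by
    have h2 : Tendsto (fun s : ℝ => -1 + -(1 / (s - 1))) atTop (𝓝 (-1 + -0)) := by
      apply Tendsto.const_add
      apply Tendsto.neg
      apply Tendsto.div_atTop tendsto_const_nhds
      exact tendsto_atTop_add_const_right _ _ tendsto_id
    rw [neg_zero, add_zero] at h2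
    refine h2.congr' ?_
    filter_upwards [eventually_gt_atTop (1:ℝ)] with s hs
    have h3 : s - 1 ≠ 0 := by linarith
    have h4 : 1 - s ≠ 0 := by linarith
    field_simp
    ring
  have h5 : Tendsto (fun s : ℝ => rr s ^ (k + 1) - 1) atTop (𝓝 (0 ^ (k + 1) - 1)) :=
    (rr_tendsto.pow (k + 1)).sub_const 1
  have h6 := h1.mul h5
  have h7 : (-1 : ℝ) * (0 ^ (k + 1) - 1) = 1 := by simp
  rw [h7] at h6
  exact h6

lemma rr_meas : Measurable rr := by unfold rr; fun_prop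

lemma gg_nonneg (k : ℕ) {s : ℝ} (hs : 0 ≤ s) : 0 ≤ gg k s :=
  div_nonneg (one_sub_pow_nonneg hs k) (by positivity)

lemma gg_meas (k : ℕ) : Measurable (gg k) := by
  have := rr_meas
  unfold gg; fun_prop

lemma gg_int1 (k : ℕ) : IntegrableOn (gg k) (Ioc 0 2) := by
  have h : IntegrableOn (fun _ : ℝ => (k:ℝ) + 1) (Ioc 0 2) := by
    simp
  refine Integrable.mono' h (gg_meas k).aestronglyMeasurable ?_
  refine (ae_restrict_iff' measurableSet_Ioc).mpr (ae_of_all _ fun s hs => ?_)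
  have hs0 : 0 ≤ s := hs.1.le
  rw [Real.norm_of_nonneg (gg_nonneg k hs0)]
  unfold gg
  by_cases h1 : 1 - s = 0
  · rw [h1]; simp; positivity
  · rw [div_le_iff₀ (by positivity)]
    exact one_sub_pow_le hs0 k

lemma gg_int2 (k : ℕ) : IntegrableOn (gg k) (Ioi 2) := by
  have h : IntegrableOn (fun s : ℝ => (s - 1) ^ (-2 : ℝ)) (Ioi 2) := by
    exact integrableOn_add_rpow_Ioi_of_lt (a := -2) (m := -1) (c := 2) (by norm_num) (by norm_num)
  refine Integrable.mono' h (gg_meas k).aestronglyMeasurable ?_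
  refine (ae_restrict_iff' measurableSet_Ioi).mpr (ae_of_all _ fun s hs => ?_)
  have hs2 : (2:ℝ) < s := hs
  have hs0 : 0 ≤ s := by linarith
  rw [Real.norm_of_nonneg (gg_nonneg k hs0)]
  unfold gg
  have h1 : (s - 1) ^ (-2 : ℝ) = 1 / (1 - s) ^ 2 := by
    rw [rpow_neg (by linarith), one_div]
    congr 1
    rw [show (2:ℝ) = ((2:ℕ):ℝ) by norm_num, rpow_natCast]
    ring
  rw [h1]
  apply div_le_div_of_nonneg_right _ (by positivity)
  have := pow_nonneg (rr_nonneg hs0) (k + 1)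
  linarith

lemma gg_int (k : ℕ) : IntegrableOn (gg k) (Ioi 0) := by
  have h := (gg_int1 k).union (gg_int2 k)
  rwa [Ioc_union_Ioi_eq_Ioi (by norm_num)] at h

lemma rr_pow_eq (k : ℕ) (s : ℝ) :
    rr s ^ (k + 1) = exp (k + 1) * (s ^ ((k:ℝ) + 2 - 1) * exp (-(((k:ℝ) + 1) * s))) := by
  unfold rr
  rw [mul_pow, ← exp_nat_mul, show (k:ℝ) + 2 - 1 = ((k + 1 : ℕ) : ℝ) by push_cast; ring,
    rpow_natCast]
  have : ((k + 1 : ℕ) : ℝ) * (1 - s) = (k + 1) + -(((k:ℝ) + 1) * s) := by push_cast; ring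
  rw [this, exp_add]; ring

lemma rr_int (k : ℕ) : IntegrableOn (fun s => rr s ^ (k + 1)) (Ioi 0) := by
  have h := integrableOn_rpow_mul_exp_neg_mul_rpow (s := (k:ℝ) + 2 - 1) (p := 1) (b := (k:ℝ) + 1)
    (by have : (0:ℝ) ≤ k := Nat.cast_nonneg k
        linarith) one_pos (by positivity)
  have h2 : IntegrableOn (fun s : ℝ => exp (k + 1) *
      (s ^ ((k:ℝ) + 2 - 1) * exp (-((k:ℝ) + 1) * s ^ (1:ℝ)))) (Ioi 0) := h.const_mul _
  refine h2.congr_fun (fun s _ => ?_) measurableSet_Ioi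
  simp only
  rw [rr_pow_eq k s, rpow_one]
  ring_nf

/-- the values of the functional -/
noncomputable def bb (k : ℕ) : ℝ := exp (k + 1) * Gamma (k + 2) / (k + 1) ^ (k + 1)

lemma rr_integral (k : ℕ) : ((k:ℝ) + 1) * ∫ s in Ioi (0:ℝ), rr s ^ (k + 1) = bb k := by
  have h1 : ∫ s in Ioi (0:ℝ), rr s ^ (k + 1) =
      ∫ s in Ioi (0:ℝ), exp (k + 1) * (s ^ ((k:ℝ) + 2 - 1) * exp (-(((k:ℝ) + 1) * s))) :=
    setIntegral_congr_fun measurableSet_Ioi fun s _ => rr_pow_eq k s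
  rw [h1, integral_const_mul, Real.integral_rpow_mul_exp_neg_mul_Ioi (by positivity) (by positivity)]
  unfold bb
  have h2 : (1 / ((k:ℝ) + 1)) ^ ((k:ℝ) + 2) = 1 / ((k:ℝ) + 1) ^ (k + 2) := by
    rw [show (k:ℝ) + 2 = ((k + 2 : ℕ) : ℝ) by push_cast; ring, rpow_natCast]
    rw [one_div_pow]
  rw [h2, pow_succ ((k:ℝ) + 1) (k + 1)]
  field_simp

/-- The integral formula for the values of the functional. -/
lemma bb_eq (k : ℕ) : bb k = 1 + ∫ s in Ioi (0:ℝ), gg k s := by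
  have hf : IntegrableOn (fun s => ((k:ℝ) + 1) * rr s ^ (k + 1) - gg k s) (Ioi 0) :=
    ((rr_int k).const_mul _).sub (gg_int k)
  have hA : ∫ s in (0:ℝ)..1, (((k:ℝ) + 1) * rr s ^ (k + 1) - gg k s) = 0 - 0 := by
    apply intervalIntegral.integral_eq_sub_of_hasDerivAt_of_tendsto (f := WW k) one_pos
    · intro s hs
      exact WW_deriv k hs.2.ne
    · rw [intervalIntegrable_iff_integrableOn_Ioc_of_le zero_le_one]
      exact hf.mono_set Ioc_subset_Ioi_self
    · exact WW_tendsto_zero k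
    · exact (WW_tendsto_one k).mono_left nhdsWithin_le_nhds
  have hB : ∫ s in Ioi (1:ℝ), (((k:ℝ) + 1) * rr s ^ (k + 1) - gg k s) = 1 - WW k 1 := by
    apply integral_Ioi_of_hasDerivAt_of_tendsto (f := WW k)
    · have : ContinuousAt (WW k) 1 := by
        rw [ContinuousAt, WW_one]; exact WW_tendsto_one k
      exact this.continuousWithinAt
    · intro s hs
      exact WW_deriv k (ne_of_gt hs)
    · exact hf.mono_set (Ioi_subset_Ioi zero_le_one)
    · exact WW_tendsto_top k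
  rw [WW_one, sub_zero] at hB
  rw [sub_zero, intervalIntegral.integral_of_le zero_le_one] at hA
  have hC : ∫ s in Ioi (0:ℝ), (((k:ℝ) + 1) * rr s ^ (k + 1) - gg k s) = 1 := by
    rw [← Ioc_union_Ioi_eq_Ioi (zero_le_one (α := ℝ)), setIntegral_union
      (Ioc_disjoint_Ioi le_rfl) measurableSet_Ioi (hf.mono_set Ioc_subset_Ioi_self)
      (hf.mono_set (Ioi_subset_Ioi zero_le_one)), hA, hB, zero_add]
  rw [integral_sub ((rr_int k).const_mul _) (gg_int k), integral_const_mul, rr_integral] at hC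
  linarith

/-- Positivity of the functional. -/
lemma bb_functional (n : ℕ) (q : ℕ → ℝ)
    (hQ : ∀ s : ℝ, 0 ≤ s → s ≤ 1 →
      s * ∑ k ∈ Finset.range (n + 1), q k * s ^ k ≤ ∑ k ∈ Finset.range (n + 1), q k) :
    0 ≤ ∑ k ∈ Finset.range (n + 1), q k * bb k := by
  have h0 := hQ 0 le_rfl zero_le_one
  rw [zero_mul] at h0
  have h1 : ∑ k ∈ Finset.range (n + 1), q k * bb k =
      ∑ k ∈ Finset.range (n + 1), q k +
        ∫ s in Ioi (0:ℝ), ∑ k ∈ Finset.range (n + 1), q k * gg k s := by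
    rw [integral_finsetSum _ fun k _ => (gg_int k).const_mul (q k), ← Finset.sum_add_distrib]
    refine Finset.sum_congr rfl fun k _ => ?_
    rw [integral_const_mul, bb_eq]; ring
  rw [h1]
  apply add_nonneg h0
  apply setIntegral_nonneg measurableSet_Ioi
  intro s hs
  have hs0 : 0 ≤ s := le_of_lt hs
  have h2 := hQ (rr s) (rr_nonneg hs0) (rr_le_one s)
  have h3 : ∑ k ∈ Finset.range (n + 1), q k * gg k s =
      (∑ k ∈ Finset.range (n + 1), q k - rr s * ∑ k ∈ Finset.range (n + 1), q k * rr s ^ k) /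
        (1 - s) ^ 2 := by
    rw [Finset.mul_sum, ← Finset.sum_sub_distrib, Finset.sum_div]
    refine Finset.sum_congr rfl fun k _ => ?_
    unfold gg
    rw [pow_succ]; ring
  rw [h3]
  exact div_nonneg (sub_nonneg.mpr h2) (by positivity)

lemma mult_geom (a : ℝ) (ha : 0 < a) : Mult (fun k => a ^ k) := by
  intro n p hp hdeg
  have e : Tn n (fun k => a ^ k) p = p.comp (Polynomial.C a * Polynomial.X) := by
    ext k
    rw [coeff_Tn, Polynomial.comp_C_mul_X_coeff]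
    split_ifs with h
    · ring
    · rw [Polynomial.coeff_eq_zero_of_natDegree_lt (lt_of_le_of_lt hdeg (not_le.mp h)), zero_mul]
  rw [e]
  rcases hp with h | h
  · left; rw [h, Polynomial.zero_comp]
  · right
    intro z hz
    rw [Polynomial.aeval_comp] at hz
    have h2 := h _ hz
    simp only [map_mul, Polynomial.aeval_C, Polynomial.aeval_X, Complex.coe_algebraMap,
      Complex.im_ofReal_mul] at h2
    exact (mul_eq_zero.mp h2).resolve_left ha.ne'

/-- The sequence `1/(k+1)^(k+1)` is a multiplier sequence. -/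
theorem selfpow_mult : Mult (fun k => 1 / ((k:ℝ) + 1) ^ (k + 1)) := by
  have h1 := mult_of_fun1 (α := 1) (by norm_num) le_rfl bb
    (fun k => by
      unfold bb
      have : 0 < Gamma ((k:ℝ) + 2) := Real.Gamma_pos_of_pos (by positivity)
      positivity) bb_functional
  have h2 := (h1.mul (mult_geom (exp (-1)) (exp_pos _))).const_mul (exp (-1))
  refine (congrArg Mult ?_).mp h2
  funext k
  have h3 : 0 < Gamma ((k:ℝ) + 2) := Real.Gamma_pos_of_pos (by positivity)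
  unfold bb lag
  rw [show (k:ℝ) + 1 + 1 = k + 2 by ring, ← exp_nat_mul]
  have h4 : exp (-1) * exp (↑k * -1) = (exp ((k:ℝ) + 1))⁻¹ := by
    rw [← exp_add, ← exp_neg]; congr 1; ring
  have h5 := (exp_pos ((k:ℝ) + 1)).ne'
  calc exp (-1) * (exp (↑k + 1) * Gamma (↑k + 2) / (↑k + 1) ^ (k + 1) * (1 / Gamma (↑k + 2)) *
        exp (↑k * -1)) = (exp (-1) * exp (↑k * -1)) * exp (↑k + 1) *
        (Gamma (↑k + 2) / Gamma (↑k + 2)) / (↑k + 1) ^ (k + 1) := by ring
    _ = _ := by rw [h4, inv_mul_cancel₀ h5, div_self h3.ne', one_mul]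

end Pool.Agent.V1175.MS
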