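import Mathlib
import Pool.Agent.V1175.MS.Ops

/-!
# Entire functions attached to multiplier sequences
-/

set_option autoImplicit false

namespace Pool.Agent.V1175.MS

open Polynomial Finset Filter Topology MeasureTheory

/-- `(1 + X/N)^N` -/
noncomputable def pN (N : ℕ) : ℝ[X] := (1 + C ((N:ℝ)⁻¹) * X) ^ N

lemma coeff_pN (N k : ℕ) : (pN N).coeff k = (N.choose k : ℝ) * ((N:ℝ)⁻¹) ^ k := by
  unfold pN
  have h : (1 + C ((N:ℝ)⁻¹) * X : ℝ[X]) ^ N = ((1 + X) ^ N : ℝ[X]).comp (C ((N:ℝ)⁻¹) * X) := by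
    simp
  rw [h, comp_C_mul_X_coeff, coeff_one_add_X_pow]

lemma natDegree_pN (N : ℕ) : (pN N).natDegree ≤ N := by
  rw [natDegree_le_iff_coeff_eq_zero]
  intro k hk
  rw [coeff_pN, Nat.choose_eq_zero_of_lt hk]; simp

lemma RR_pN (N : ℕ) : RR (pN N) := by
  right
  intro z hz
  unfold pN at hz
  rw [map_pow] at hz
  cases N with
  | zero => simp at hz
  | succ N =>
    have h1 := pow_eq_zero_iff (n := N + 1) (by omega) |>.mp hz
    rw [map_add, map_one, map_mul, aeval_C, aeval_X] at h1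
    have h2 := congrArg Complex.im h1
    have h3 : (((N + 1 : ℕ) : ℝ)⁻¹) ≠ 0 := by positivity
    simp only [Complex.add_im, Complex.one_im, zero_add, Complex.coe_algebraMap,
      Complex.im_ofReal_mul, Complex.zero_im] at h2
    exact (mul_eq_zero.mp h2).resolve_left h3

/-- Convergence of the coefficients. -/
lemma choose_tendsto (k : ℕ) :
    Tendsto (fun N : ℕ => (N.choose k : ℝ) * ((N:ℝ)⁻¹) ^ k) atTop (𝓝 (1 / (k.factorial : ℝ))) := by
  have h1 : Tendsto (fun n : ℕ => (n:ℝ) * ((n:ℝ)⁻¹)) atTop (𝓝 1) := by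
    refine tendsto_const_nhds.congr' ?_
    filter_upwards [eventually_gt_atTop 0] with n hn
    have : (n:ℝ) ≠ 0 := by exact_mod_cast hn.ne'
    rw [mul_inv_cancel₀ this]
  have h := ProbabilityTheory.tendsto_choose_mul_pow_atTop (p := fun n : ℕ => (n:ℝ)⁻¹) k h1
  simpa using h

lemma choose_bound (N k : ℕ) :
    (N.choose k : ℝ) * ((N:ℝ)⁻¹) ^ k ≤ 1 / (k.factorial : ℝ) := by
  rcases Nat.eq_zero_or_pos N with h | h
  · subst h
    cases k with
    | zero => simp
    | succ k => simp
  · have h1 := Nat.choose_le_pow_div (α := ℝ) k N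
    have h2 : (0:ℝ) < (N:ℝ) ^ k := by positivity
    calc (N.choose k : ℝ) * ((N:ℝ)⁻¹) ^ k ≤ ((N:ℝ) ^ k / (k.factorial : ℝ)) * ((N:ℝ)⁻¹) ^ k :=
          mul_le_mul_of_nonneg_right h1 (by positivity)
      _ = 1 / (k.factorial : ℝ) := by
          rw [inv_pow]; field_simp

/-- The entire function of a multiplier sequence is a limit of polynomials with real zeros. -/
theorem LP_of_mult (γ : ℕ → ℝ) (h0 : ∀ k, 0 ≤ γ k) (B A : ℝ)
    (hB : ∀ k, γ k ≤ B * A ^ k) (K : Set ℂ) (hK : IsCompact K) :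
    TendstoUniformlyOn (fun N z => aeval z (Tn N γ (pN N)))
      (fun z => ∑' k : ℕ, ((γ k / (k.factorial : ℝ) : ℝ) : ℂ) * z ^ k) atTop K := by
  have hB0 : 0 ≤ B := by
    have := (h0 0).trans (hB 0)
    simpa using this
  obtain ⟨R, hR⟩ := hK.isBounded.subset_closedBall 0
  set R' : ℝ := max R 0 with hR'
  have hR0 : 0 ≤ R' := le_max_right _ _
  have hzR : ∀ z ∈ K, ‖z‖ ≤ R' := by
    intro z hz
    have := hR hz
    rw [mem_closedBall_zero_iff] at this
    exact this.trans (le_max_left _ _)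
  set a : ℕ → ℕ → ℝ := fun N k => (N.choose k : ℝ) * ((N:ℝ)⁻¹) ^ k with ha
  have ha0 : ∀ N k, 0 ≤ a N k := fun N k => by simp only [ha]; positivity
  have haz : ∀ N k, N < k → a N k = 0 := by
    intro N k h
    simp only [ha]; rw [Nat.choose_eq_zero_of_lt h]; simp
  -- the majorant
  have hsum : Summable fun k : ℕ => B * ((A * R') ^ k / (k.factorial : ℝ)) :=
    (Real.summable_pow_div_factorial (A * R')).mul_left B
  have hbd : ∀ k : ℕ, γ k / (k.factorial : ℝ) * R' ^ k ≤ B * ((A * R') ^ k / (k.factorial : ℝ)) := by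
    intro k
    have h1 : γ k / (k.factorial : ℝ) * R' ^ k = γ k * (R' ^ k / (k.factorial : ℝ)) := by ring
    have h2 : B * ((A * R') ^ k / (k.factorial : ℝ)) = (B * A ^ k) * (R' ^ k / (k.factorial : ℝ)) := by
      rw [mul_pow]; ring
    rw [h1, h2]
    exact mul_le_mul_of_nonneg_right (hB k) (by positivity)
  have hbd2 : ∀ N k : ℕ, γ k * a N k * R' ^ k ≤ B * ((A * R') ^ k / (k.factorial : ℝ)) := by
    intro N k
    refine le_trans ?_ (hbd k)
    apply mul_le_mul_of_nonneg_right _ (by positivity)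
    have h1 : γ k / (k.factorial : ℝ) = γ k * (1 / (k.factorial : ℝ)) := by ring
    rw [h1]
    exact mul_le_mul_of_nonneg_left (choose_bound N k) (h0 k)
  -- the error
  set d : ℕ → ℕ → ℝ := fun N k => |γ k * a N k - γ k / (k.factorial : ℝ)| * R' ^ k with hd
  have hdb : ∀ N k, ‖d N k‖ ≤ B * ((A * R') ^ k / (k.factorial : ℝ)) +
      B * ((A * R') ^ k / (k.factorial : ℝ)) := by
    intro N k
    simp only [hd]
    rw [Real.norm_of_nonneg (by positivity)]
    have h1 : |γ k * a N k - γ k / (k.factorial : ℝ)| ≤ γ k * a N k + γ k / (k.factorial : ℝ) := by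
      have h2 : 0 ≤ γ k * a N k := mul_nonneg (h0 k) (ha0 N k)
      have h3 : 0 ≤ γ k / (k.factorial : ℝ) := div_nonneg (h0 k) (by positivity)
      rw [abs_le]; constructor <;> linarith
    calc _ ≤ (γ k * a N k + γ k / (k.factorial : ℝ)) * R' ^ k :=
          mul_le_mul_of_nonneg_right h1 (by positivity)
      _ ≤ _ := by rw [add_mul]; exact add_le_add (hbd2 N k) (hbd k)
  have hlim : Tendsto (fun N => ∑' k, d N k) atTop (𝓝 0) := by
    have h := tendsto_tsum_of_dominated_convergence (f := d) (g := fun _ => (0:ℝ)) (𝓕 := atTop)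
      (hsum.add hsum) (by
        intro k
        simp only [hd]
        have h1 : Tendsto (fun N => γ k * a N k - γ k / (k.factorial : ℝ)) atTop
            (𝓝 (γ k * (1 / (k.factorial : ℝ)) - γ k / (k.factorial : ℝ))) :=
          ((choose_tendsto k).const_mul (γ k)).sub_const _
        have h2 : γ k * (1 / (k.factorial : ℝ)) - γ k / (k.factorial : ℝ) = 0 := by ring
        rw [h2] at h1
        have h3 := h1.abs.mul_const (R' ^ k)
        simpa using h3) (Eventually.of_forall fun N k => hdb N k)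
    simpa using h
  rw [Metric.tendstoUniformlyOn_iff]
  intro ε hε
  filter_upwards [hlim.eventually (gt_mem_nhds hε)] with N hN z hz
  refine lt_of_le_of_lt ?_ hN
  have hz' := hzR z hz
  have e1 : aeval z (Tn N γ (pN N)) = ∑' k : ℕ, ((γ k * a N k : ℝ) : ℂ) * z ^ k := by
    rw [aeval_Tn, tsum_eq_sum (s := range (N + 1))]
    · refine Finset.sum_congr rfl fun k _ => ?_
      rw [coeff_pN]
      simp only [ha]
      push_cast; ring
    · intro k hk
      rw [haz N k (by simpa [Nat.lt_succ_iff] using hk)]; simp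
  have s1 : Summable fun k : ℕ => ((γ k * a N k : ℝ) : ℂ) * z ^ k := by
    refine Summable.of_norm_bounded hsum fun k => ?_
    rw [norm_mul, norm_pow, Complex.norm_real, Real.norm_of_nonneg (mul_nonneg (h0 k) (ha0 N k))]
    refine le_trans ?_ (hbd2 N k)
    exact mul_le_mul_of_nonneg_left (pow_le_pow_left₀ (norm_nonneg _) hz' k)
      (mul_nonneg (h0 k) (ha0 N k))
  have s2 : Summable fun k : ℕ => ((γ k / (k.factorial : ℝ) : ℝ) : ℂ) * z ^ k := by
    refine Summable.of_norm_bounded hsum fun k => ?_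
    have h3 : 0 ≤ γ k / (k.factorial : ℝ) := div_nonneg (h0 k) (by positivity)
    rw [norm_mul, norm_pow, Complex.norm_real, Real.norm_of_nonneg h3]
    refine le_trans ?_ (hbd k)
    exact mul_le_mul_of_nonneg_left (pow_le_pow_left₀ (norm_nonneg _) hz' k) h3
  rw [e1, dist_comm, dist_eq_norm, ← s1.tsum_sub s2]
  have s3 : Summable fun k => d N k :=
    Summable.of_norm_bounded (hsum.add hsum) (hdb N)
  refine tsum_of_norm_bounded s3.hasSum fun k => ?_
  rw [← sub_mul, norm_mul, norm_pow, ← Complex.ofReal_sub, Complex.norm_real, Real.norm_eq_abs]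
  simp only [hd]
  exact mul_le_mul_of_nonneg_left (pow_le_pow_left₀ (norm_nonneg _) hz' k) (abs_nonneg _)

end Pool.Agent.V1175.MS
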